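import Pool.Agent.Helper5.HB.Over
import Pool.Agent.Helper80.MX.SpanK

/-! HULL BRIDGE: no polynomial relation over the label of a canonical form gives full volume, and full entropy if `ST`
holds. -/

set_option autoImplicit false

namespace Pool.Agent.Helper5.HB

open Finset Filter Topology Matrix Pool.Agent.Helper69.RK Pool.Agent.Helper31.EC Pool.Agent.Helper31.EC.Sp
open Pool.Agent.Helper95.LF Pool.Agent.Helper3.LF Pool.Agent.Helper84.MT Pool.Agent.Helper5.DO QS
open Pool.Agent.Helper89.LX Pool.Agent.Helper40.EL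

noncomputable section

variable {S : Sp} {M D : ℕ}

/-- the label of a sequence of forms -/
def lb {κ : Type} (x : ∀ k, FD (S.F k) κ) : Lab S := fun k => (x k).l

/-- the point in the space over a label -/
def oQ (l : Lab S) (Q : S.VV M) : (l.ovr 1 one_pos).VV M := (l.pj.vv Q).chg l.V 1 one_pos

theorem cq_oQ (l : Lab S) (Q : S.VV M) : cq (oQ l Q) = Pool.Agent.Helper80.MX.oq l Q := rfl

/-- ROBUST: no relation over a label, on all events of positive probability -/
def NRl (D : ℕ) (l : Lab S) (Q : S.VV M) : Prop :=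
  ∀ (E : ∀ k, ((l.ovr 1 one_pos).F k).Ω → Prop) (hE : 0 < ul ((l.ovr 1 one_pos).pr E)) (r : ℝ), 0 < r → r ≤ 1 →
    NR D (cq ((oQ l Q).rest E)) (⊥ : ((l.ovr 1 one_pos).rest E).L) r

theorem ovr_n (l : Lab S) (k : ℕ) : ((l.ovr 1 one_pos).F k).n = (S.F k).n := by
  rw [l.n_over, one_mul]

theorem ovr_dl (l : Lab S) (r : ℝ) (k : ℕ) : (l.ovr 1 one_pos).dl r k = S.dl r k := by
  show (2 : ℝ) ^ (-(r * ((l.ovr 1 one_pos).F k).n)) = 2 ^ (-(r * (S.F k).n))
  rw [ovr_n]

/-- HB1: no relation over the label of an admissible form: full volume -/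
theorem vol_ge {κ : Type} {A : κ → Part S} (Q : S.VV M) {x : ∀ k, FD (S.F k) (Mon M D)}
    (hx : (gaq Q D).Adf A x) (hNR : NRl D (lb x) Q) : (M : ℝ) ≤ vol Q D x := by
  have hC0 := (gaq Q D).C0
  have h1 := hb_base (U := (lb x).ovr 1 one_pos) (D := D) (oQ (lb x) Q) (fun k ω => (x k).g ω) (by
      intro k ω ω' a b c
      exact ((x k).meas ω ω' a b c.1 c.2).1) (C := (gaq Q D).C + 1) (by linarith) (by
      filter_upwards [hx 1 one_pos] with k hk ω hω
      have h2 := (hk.2.1 ω hω).1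
      rw [ovr_n]
      exact h2) (by
      intro η hη
      have h3 : Tendsto (fun k => (x k).l.T.pb (fun ω => ¬ (gaq Q D).φ k ((x k).l.p.π ω) ((x k).g ω) ≤
          2 ^ (η * (S.F k).n))) UF (𝓝 0) := by
        rw [Metric.tendsto_nhds]
        intro e he
        filter_upwards [hx (min η (e / 2)) (lt_min hη (by linarith))] with k hk
        have h4 := hk.2.2.1
        have h5 := (x k).l.T.pb_nonneg (fun ω => ¬ (gaq Q D).φ k ((x k).l.p.π ω) ((x k).g ω) ≤ 2 ^ (η * (S.F k).n))
        rw [Real.dist_eq, sub_zero, abs_of_nonneg h5]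
        have h6 : (x k).l.T.pb (fun ω => ¬ (gaq Q D).φ k ((x k).l.p.π ω) ((x k).g ω) ≤ 2 ^ (η * (S.F k).n)) ≤
            (x k).l.T.pb (fun ω => ¬ (gaq Q D).φ k ((x k).l.p.π ω) ((x k).g ω) ≤
              2 ^ (min η (e / 2) * (S.F k).n)) := by
          apply FSp.pb_mono
          intro ω _ h7 h8
          apply h7
          refine h8.trans ?_
          apply Real.rpow_le_rpow_of_exponent_le (by norm_num)
          exact mul_le_mul_of_nonneg_right (min_le_left _ _) (S.F k).pos.le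
        have h9 : min η (e / 2) ≤ e / 2 := min_le_right _ _
        linarith
      refine h3.congr fun k => ?_
      show (x k).l.T.pb _ = (x k).l.T.pb _
      congr 1
      funext ω
      show (¬(gaq Q D).φ k ((x k).l.p.π ω) ((x k).g ω) ≤ 2 ^ (η * (S.F k).n)) =
        ¬ phi (((lb x).ovr 1 one_pos).dl 1 k) ((x k).g ω) (Q.v k ((x k).l.p.π ω)) ≤
          2 ^ (η * (((lb x).ovr 1 one_pos).F k).n)
      rw [ovr_n, ovr_dl]
      rfl) hNR
  have h2 : (fun k => ∑ ω, (((lb x).ovr 1 one_pos).F k).μ ω *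
      (Real.logb 2 (GQ (((lb x).ovr 1 one_pos).dl 1 k) ((x k).g ω) ((oQ (lb x) Q).v k ω)) /
        (2 * (((lb x).ovr 1 one_pos).F k).n))) = fun k => ∑ ω, (x k).l.T.μ ω *
      (Real.logb 2 (GQ (S.dl 1 k) ((x k).g ω) (Q.v k ((x k).l.p.π ω))) / (2 * (S.F k).n)) := by
    funext k
    rw [ovr_dl, ovr_n]
    rfl
  rw [h2] at h1
  unfold vol
  linarith

/-- no relation and `ST`: the point is full over the label of the canonical form -/
theorem full_of_NR {E : ℕ → ℕ} {ι : Type} (hST : STm D M E ι) (s : MSys S M E ι)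
    {x : ∀ k, FD (S.F k) (Mon M D)} (hx : s.IsCan D 0 x) (hNR : NRl D (lb x) s.Q) :
    H (up1 (lb x) (s.Q.dg 1)) = M := by
  apply le_antisymm
  · have h1 := (oQ (lb x) s.Q).H_dg_le (zero_le_one)
    rw [mul_one] at h1
    have h2 : (oQ (lb x) s.Q).dg 1 = up1 (lb x) (s.Q.dg 1) := by
      show (((lb x).pj.vv s.Q).chg (lb x).V 1 one_pos).dg 1 = _
      rw [VV.chg_dg, one_mul, ← (lb x).pj.map_dg]
      rfl
    rw [h2] at h1
    exact h1
  · exact (vol_ge s.Q hx.1.1 hNR).trans (hST S s x hx)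

end

end Pool.Agent.Helper5.HB
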