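import Pool.Agent.Helper5.HB.Conv
import Pool.Agent.Helper69.BF.Trf

/-! HULL BRIDGE: relations over a label and relations over an information. -/

set_option autoImplicit false

namespace Pool.Agent.Helper5.HB

open Finset Filter Topology Matrix Pool.Agent.Helper69.RK Pool.Agent.Helper31.EC Pool.Agent.Helper31.EC.Sp
open Pool.Agent.Helper95.LF Pool.Agent.Helper3.LF Pool.Agent.Helper84.MT Pool.Agent.Helper5.DO QS
open Pool.Agent.Helper89.LX Pool.Agent.Helper40.EL Pool.Agent.Helper69.BF

noncomputable section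

variable {S : Sp} {M D : ℕ}

theorem map_deg {R T : Type*} [CommRing R] [CommRing T] {σ : Type*} (F : R →+* T) (P : MvPolynomial σ R) :
    (MvPolynomial.map F P).totalDegree ≤ P.totalDegree := by
  unfold MvPolynomial.totalDegree
  apply Finset.sup_mono
  exact MvPolynomial.support_map_subset F P

/-- NO RELATION over `V` in `S`, and over the base in the space over `V` -/
theorem NR_chg (V : S.Inf) {σ : Type} (x : σ → QS S) {r : ℝ} (hr : r ≤ 1) :
    NR D (fun i => cgh V.1 1 one_pos le_rfl (x i)) (⊥ : (S.chg V.1 1 one_pos).L) r ↔ NR D x (cl V) r := by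
  classical
  obtain ⟨F, hF⟩ : ∃ F : QS S →+* QS (S.chg V.1 1 one_pos), F = cgh V.1 1 one_pos le_rfl := ⟨_, rfl⟩
  have hd : ∀ f : QS S, dg (F f) 1 = chgL V.1 1 one_pos (dg f 1) := by
    intro f
    rw [hF, cgh_dg _ _ _ _ f le_rfl, one_mul]
  have hm : ∀ f : QS S, F f ∈ Id (S.chg V.1 1 one_pos) r ↔ f ∈ Id S r := by
    intro f
    rw [hF, cgh_mem _ _ _ _ f hr, one_mul]
  have hev : ∀ P : MvPolynomial σ (QS S), MvPolynomial.eval (fun i => cgh V.1 1 one_pos le_rfl (x i))
      (MvPolynomial.map F P) = F (MvPolynomial.eval x P) := by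
    intro P
    rw [← hF, MvPolynomial.eval_map]
    have h1 := MvPolynomial.eval₂_comp_left F (RingHom.id (QS S)) x P
    exact h1.symm
  constructor
  · intro h P hP1 hP2 hP3 m
    have h1 := h (MvPolynomial.map F P) ((map_deg F P).trans hP1) (by
      intro m
      rw [MvPolynomial.coeff_map, hd, ← chgL_base 1 one_pos V]
      exact chgL_mono _ _ _ (hP2 m)) (by
      rw [hev, hm]
      exact hP3) m
    rw [MvPolynomial.coeff_map, hm] at h1
    exact h1
  · intro h P hP1 hP2 hP3 m
    have hsur : ∀ f : QS (S.chg V.1 1 one_pos), ∃ g : QS S, F g = f := by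
      intro f
      obtain ⟨g, hg⟩ := cgh_surj V.1 1 one_pos le_rfl f
      exact ⟨QS.mk g, by rw [hF]; exact hg⟩
    choose G hG using hsur
    obtain ⟨P', hP'⟩ : ∃ P' : MvPolynomial σ (QS S), P' = ∑ m ∈ P.support, MvPolynomial.monomial m (G (P.coeff m)) :=
      ⟨_, rfl⟩
    have hc : ∀ m, P'.coeff m = if m ∈ P.support then G (P.coeff m) else 0 := by
      intro m
      rw [hP', MvPolynomial.coeff_sum]
      by_cases h1 : m ∈ P.support
      · rw [if_pos h1, Finset.sum_eq_single m]
        · rw [MvPolynomial.coeff_monomial, if_pos rfl]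
        · intro m' _ h3
          rw [MvPolynomial.coeff_monomial, if_neg h3]
        · intro h2
          exact absurd h1 h2
      · rw [if_neg h1]
        apply Finset.sum_eq_zero
        intro m' h2
        rw [MvPolynomial.coeff_monomial, if_neg]
        intro h3
        rw [h3] at h2
        exact h1 h2
    have hmap : MvPolynomial.map F P' = P := by
      apply MvPolynomial.ext
      intro m
      rw [MvPolynomial.coeff_map, hc]
      split_ifs with h1
      · exact hG _
      · rw [map_zero]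
        exact (MvPolynomial.notMem_support_iff.mp h1).symm
    have h1 := h P' (by
      rw [hP']
      refine MvPolynomial.totalDegree_finsetSum_le fun m hm => ?_
      exact (MvPolynomial.totalDegree_monomial_le _ _).trans ((MvPolynomial.le_totalDegree hm).trans hP1)) (by
      intro m
      have h2 : dg (F (P'.coeff m)) 1 ≤ ⊥ := by
        have h3 := hP2 m
        rw [← hmap, MvPolynomial.coeff_map] at h3
        exact h3
      rw [hd, ← chgL_base 1 one_pos V, chgL_le_inf, sup_idem] at h2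
      exact h2) (by
      rw [← hm, ← hev, hmap]
      exact hP3) m
    rw [← hm, ← MvPolynomial.coeff_map, hmap] at h1
    exact h1

theorem NR_chg_rest {T : Sp} (Q : T.VV M) (V : T.Inf) (E : ∀ k, (T.F k).Ω → Prop) {r : ℝ} (h1 : r ≤ 1) :
    NR D (cq (VV.rest (S := T.chg V.1 1 one_pos) E (Q.chg V.1 1 one_pos))) (⊥ : ((T.chg V.1 1 one_pos).rest E).L) r ↔
      NR D (cq (Q.rest E)) (cl (restI E V)) r := by
  have h2 := NR_chg (D := D) (restI E V) (cq (Q.rest E)) h1
  exact h2

/-- the robust form over a label with a bounded partition -/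
theorem NRl_iff {l : Lab S} (hV : l.sp.VB l.V) (Q : S.VV M) : NRl D l Q ↔
    ∀ (E : ∀ k, (l.sp.F k).Ω → Prop) (hE : 0 < ul (l.sp.pr E)) (r : ℝ), 0 < r → r ≤ 1 →
      NR D (fun i => QS.rest E hE (l.pj.qs (cq Q i))) (restL E hE (cl (⟨l.V, hV⟩ : l.sp.Inf))) r := by
  obtain ⟨V, hV'⟩ : ∃ V : l.sp.Inf, V = ⟨l.V, hV⟩ := ⟨_, rfl⟩
  have e1 : l.V = V.1 := by rw [hV']
  rw [← hV']
  have key : ∀ (E : ∀ k, (l.sp.F k).Ω → Prop) {r : ℝ}, r ≤ 1 →
      (NR D (cq (VV.rest (S := l.ovr 1 one_pos) E (oQ l Q))) (⊥ : ((l.ovr 1 one_pos).rest E).L) r ↔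
        NR D (cq ((l.pj.vv Q).rest E)) (cl (restI E V)) r) := by
    intro E r h1
    have h2 := NR_chg_rest (D := D) (l.pj.vv Q) V E h1
    rw [← e1] at h2
    exact h2
  constructor
  · intro h E hE r h0 h1
    exact (key E h1).mp (h E hE r h0 h1)
  · intro h E hE r h0 h1
    exact (key E h1).mpr (h E hE r h0 h1)

/-- the label of an information of an extension -/
def lbI {T : Sp} (p : Pj T S) (V : ∀ k, Setoid (T.F k).Ω) : Lab S :=
  fun k => ⟨T.F k, ⟨p.π k, p.law k, p.hZ k⟩, p.hn k, V k⟩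

/-- full volume: no relation over informations of extensions which have no leak at the conditions -/
theorem NR_of_vol {κ : Type} [Finite κ] {A : κ → Part S} (Q : S.VV M) {x : ∀ k, FD (S.F k) (Mon M D)}
    (hx : (gaq Q D).Optf A x) (hv : (M : ℝ) ≤ vol Q D x) {T : Sp} (p : Pj T S) (V : T.Inf)
    (hl : (lbI p V.1).DMf A) (E : ∀ k, (T.F k).Ω → Prop) (hE : 0 < ul (T.pr E)) {r : ℝ} (h0 : 0 < r) (h1 : r ≤ 1) :
    NR D (fun i => QS.rest E hE (p.qs (cq Q i))) (restL E hE (cl V)) r :=
  (NRl_iff (l := lbI p V.1) V.2 Q).mp (NRl_of_vol Q hx hv hl) E hE r h0 h1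

/-- full volume: no relation over the base, on all events of all extensions -/
theorem NR_bot_of_vol {κ : Type} [Finite κ] {A : κ → Part S} (Q : S.VV M) {x : ∀ k, FD (S.F k) (Mon M D)}
    (hx : (gaq Q D).Optf A x) (hv : (M : ℝ) ≤ vol Q D x) {T : Sp} (p : Pj T S)
    (E : ∀ k, (T.F k).Ω → Prop) (hE : 0 < ul (T.pr E)) {r : ℝ} (h0 : 0 < r) (h1 : r ≤ 1) :
    NR D (fun i => QS.rest E hE (p.qs (cq Q i))) ⊥ r := by
  have h2 := NR_of_vol Q hx hv p Inf.bot (by
    intro i
    have h3 : (fun k => (lbI p (Inf.bot : T.Inf).1 k).leak (A i k)) = fun _ => 0 := by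
      funext k
      show I (fc (⊤ : Setoid (T.F k).Ω)) _ _ = 0
      rw [fc_top, I_zero_of_le_left bot_le]
    show Nul S _
    rw [h3]
    exact Nul_zero S) E hE h0 h1
  rw [cl_bot] at h2
  exact h2

end

end Pool.Agent.Helper5.HB
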