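import Pool.Agent.Helper5.HB.Rel
import Pool.Agent.Helper3.LF.Adm

/-! HULL BRIDGE, converse: the data of a polynomial relation. -/

set_option autoImplicit false

namespace Pool.Agent.Helper5.HB

open Finset Filter Topology Matrix Pool.Agent.Helper69.RK Pool.Agent.Helper31.EC Pool.Agent.Helper31.EC.Sp
open Pool.Agent.Helper95.LF Pool.Agent.Helper3.LF Pool.Agent.Helper84.MT Pool.Agent.Helper5.DO QS

noncomputable section

variable {W : Sp} {M D : ℕ}

/-- a polynomial as a sum over the monomials of degree at most `D` -/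
theorem as_mon {R : Type*} [CommRing R] (q : MvPolynomial (Fin M) R) (hq : q.totalDegree ≤ D) :
    q = ∑ a : Mon M D, MvPolynomial.monomial a.ex (q.coeff a.ex) := by
  classical
  have h2 : ∑ a : Mon M D, MvPolynomial.monomial a.ex (q.coeff a.ex) =
      ∑ s ∈ Finset.univ.image (Mon.ex : Mon M D → Fin M →₀ ℕ), MvPolynomial.monomial s (q.coeff s) :=
    (Finset.sum_image (f := fun s => MvPolynomial.monomial s (q.coeff s)) (fun a _ b _ h => ex_inj h)).symm
  rw [h2]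
  conv_lhs => rw [q.as_sum]
  refine Finset.sum_subset ?_ ?_
  · intro s hs
    have h3 : (s.sum fun _ e => e) ≤ D := (MvPolynomial.le_totalDegree hs).trans hq
    rw [Finsupp.sum_fintype _ _ (fun _ => rfl)] at h3
    have h4 : ∀ i, s i < D + 1 := fun i =>
      Nat.lt_succ_of_le ((Finset.single_le_sum (f := fun i => s i) (fun _ _ => Nat.zero_le _)
        (Finset.mem_univ i)).trans h3)
    refine Finset.mem_image.2 ⟨⟨fun i => ⟨s i, h4 i⟩, h3⟩, Finset.mem_univ _, ?_⟩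
    ext i
    rfl
  · intro s _ hs
    rw [MvPolynomial.notMem_support_iff.1 hs, MvPolynomial.monomial_zero]

/-- a monomial with a coefficient different from zero -/
theorem ex_of_coeff {R : Type*} [CommRing R] (q : MvPolynomial (Fin M) R) (hq : q.totalDegree ≤ D)
    (m : Fin M →₀ ℕ) (hm : q.coeff m ≠ 0) : ∃ a : Mon M D, a.ex = m := by
  have h3 : (m.sum fun _ e => e) ≤ D := (MvPolynomial.le_totalDegree (MvPolynomial.mem_support_iff.mpr hm)).trans hq
  rw [Finsupp.sum_fintype _ _ (fun _ => rfl)] at h3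
  have h4 : ∀ i, m i < D + 1 := fun i =>
    Nat.lt_succ_of_le ((Finset.single_le_sum (f := fun i => m i) (fun _ _ => Nat.zero_le _)
      (Finset.mem_univ i)).trans h3)
  refine ⟨⟨fun i => ⟨m i, h4 i⟩, h3⟩, ?_⟩
  ext i
  rfl

/-- the value of a polynomial -/
theorem ev_val (c : Mon M D → TR W) (Q : W.VV M) (k : ℕ) (ω : (W.F k).Ω) :
    TR.ev (∑ a : Mon M D, c a * ∏ i, TR.cor Q i ^ (a.1 i : ℕ)) k ω = ∑ a, TR.ev (c a) k ω * vv (Q.v k ω) a := by
  rw [← TR.evh_apply, map_sum]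
  refine Finset.sum_congr rfl fun a _ => ?_
  rw [map_mul, map_prod, vv_apply, TR.evh_apply]
  congr 1

/-- events which are not typical have a complement of positive probability -/
theorem pos_of_not_typ {E : ∀ k, (W.F k).Ω → Prop} (h : ¬ Typ E) : 0 < ul (W.pr (fun k ω => ¬ E k ω)) := by
  by_contra hno
  apply h
  have h0 : ul (W.pr (fun k ω => ¬ E k ω)) = 0 := le_antisymm (not_lt.mp hno)
    (const_le_ul (UB_pr _) (Eventually.of_forall fun k => pr_nonneg _ k))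
  have h1 := ul_tendsto (UB_pr (S := W) (fun k ω => ¬ E k ω))
  rw [h0] at h1
  exact h1

/-- a function which is not small is large with positive probability -/
theorem large_of_notMem {f : TR W} {r : ℝ} (hr : r ≤ 1) (h : mk f ∉ Id W r) : ∃ ε : ℝ, 0 < ε ∧ ε ≤ 1 ∧
    0 < ul (W.pr (fun k ω => ¬ |TR.ev f k ω| ≤ 2 ^ (-((r - ε) * (W.F k).n)))) := by
  by_contra hc0
  have hc : ∀ ε : ℝ, 0 < ε → ε ≤ 1 →
      ul (W.pr (fun k ω => ¬ |TR.ev f k ω| ≤ 2 ^ (-((r - ε) * (W.F k).n)))) ≤ 0 :=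
    fun ε h1 h2 => not_lt.mp fun h3 => hc0 ⟨ε, h1, h2, h3⟩
  apply h
  rw [mk_mem_Id hr]
  have h1 : ∀ e : ℝ, 0 < e → Typ (fun k ω => |TR.ev f k ω| * 2 ^ (r * (W.F k).n) ≤ 2 ^ (e * (W.F k).n)) := by
    intro e he
    have h2 : Typ (S := W) (fun k ω => |TR.ev f k ω| ≤ 2 ^ (-((r - min e 1) * (W.F k).n))) := by
      by_contra h3
      have h4 := pos_of_not_typ h3
      have h5 := hc (min e 1) (lt_min he one_pos) (min_le_right _ _)
      linarith
    refine h2.mono (Eventually.of_forall fun k ω _ h3 => ?_)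
    have hn := (W.F k).pos
    have h4 := mul_le_mul_of_nonneg_right h3 (by positivity : (0 : ℝ) ≤ 2 ^ (r * (W.F k).n))
    refine h4.trans ?_
    rw [← Real.rpow_add (by norm_num)]
    apply Real.rpow_le_rpow_of_exponent_le (by norm_num)
    have h5 : min e 1 * (W.F k).n ≤ e * (W.F k).n := mul_le_mul_of_nonneg_right (min_le_left _ _) hn.le
    linarith
  obtain ⟨K, hK, hT⟩ := typ_sub_le _ h1
  refine ⟨_, K, hT, hK, Eventually.of_forall fun k ω _ h3 => ?_⟩
  rw [TR.ev_zero, sub_zero]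
  have h5 : (0 : ℝ) < 2 ^ (r * (W.F k).n) := by positivity
  have h6 : W.dl r k = (2 ^ (r * (W.F k).n))⁻¹ := by
    show (2 : ℝ) ^ (-(r * (W.F k).n)) = _
    rw [Real.rpow_neg (by norm_num)]
  rw [h6, ← div_eq_mul_inv, le_div_iff₀ h5]
  exact h3

/-- THE DATA OF A RELATION -/
theorem rel_data (Q : W.VV M) {r : ℝ} (hr1 : r ≤ 1) (h : ¬ NR D (cq Q) (⊥ : W.L) r) :
    ∃ (c : Mon M D → TR W) (a0 : Mon M D) (ε : ℝ) (K1 : ℕ → ℝ), 0 < ε ∧ ε ≤ 1 ∧ (∀ a, TR.dg (c a) 1 ≤ ⊥) ∧ W.Sub K1 ∧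
      Typ (fun k ω => |∑ a, TR.ev (c a) k ω * vv (Q.v k ω) a| ≤ K1 k * W.dl r k) ∧
      0 < ul (W.pr (fun k ω => ¬ |TR.ev (c a0) k ω| ≤ 2 ^ (-((r - ε) * (W.F k).n)))) := by
  unfold NR at h
  push Not at h
  obtain ⟨P, hD, hP, h0, m, hm⟩ := h
  obtain ⟨a0, ha0⟩ := ex_of_coeff P hD m (fun h => hm (by rw [h]; exact (Id W r).zero_mem))
  choose c hc using fun a : Mon M D => mk_surj (P.coeff a.ex)
  have h1 : MvPolynomial.eval (cq Q) P = mk (∑ a : Mon M D, c a * ∏ i, TR.cor Q i ^ (a.1 i : ℕ)) := by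
    conv_lhs => rw [as_mon P hD]
    rw [map_sum, map_sum]
    refine Finset.sum_congr rfl fun a _ => ?_
    rw [MvPolynomial.eval_monomial, map_mul, map_prod, Finsupp.prod_fintype _ _ (fun _ => pow_zero _), hc]
    congr 1
  rw [h1, mk_mem_Id hr1] at h0
  obtain ⟨E, K1, hE, hK1, hh⟩ := h0
  rw [← ha0, ← hc a0] at hm
  obtain ⟨ε, he0, he1, hpos⟩ := large_of_notMem hr1 hm
  refine ⟨c, a0, ε, K1, he0, he1, ?_, hK1, ?_, hpos⟩
  · intro a
    have h2 := hP a.ex
    rw [← hc a] at h2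
    rw [← dg_mk _ le_rfl]
    exact h2
  · refine hE.mono ?_
    filter_upwards [hh] with k hk ω hω h3
    have h4 := hk ω hω h3
    rw [ev_val, TR.ev_zero, sub_zero] at h4
    exact h4

/-- the entropy of the digits -/
theorem ent_data {N : ℕ} (y : W.VV N) (hy : y.dg 1 ≤ ⊥) :
    Tendsto (fun k => (W.F k).e (Setoid.ker (y.cellv 1 k)) (W.F k).Z / (W.F k).n) UF (𝓝 0) := by
  have h1 : y.dg 1 = cl (y.bdd 1).toInf := io_eq (y.bdd 1)
  rw [h1, ← cl_bot, cl_le, Inf.le_def] at hy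
  refine hy.congr fun k => ?_
  show (W.F k).e (Setoid.ker (y.cellv 1 k)) (⊤ ⊓ (W.F k).Z) / (W.F k).n = _
  rw [top_inf_eq]

end

end Pool.Agent.Helper5.HB
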