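import Pool.Agent.Helper31.EC.Rest
import Pool.Agent.Helper89.LX.Can
import Pool.Agent.Helper84.MT.Canf
import Pool.Agent.Helper3.LF.Adm
import Pool.Agent.Helper49.MT.Agr

/-! HULL BRIDGE, converse: the entropy of data selected on an event; admissible forms for families of conditions. -/

set_option autoImplicit false

namespace Pool.Agent.Helper5.HB

open Finset Filter Topology Matrix Pool.Agent.Helper69.RK Pool.Agent.Helper31.EC Pool.Agent.Helper31.EC.Sp
open Pool.Agent.Helper40.EL Pool.Agent.Helper89.LX Pool.Agent.Helper3.LF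

noncomputable section

/-- a variable with values in a finite type -/
theorem e_fin (F : FSp) {α : Type} [Fintype α] (a : F.Ω → α) (B : Setoid F.Ω) :
    F.e (Setoid.ker a) B ≤ Real.logb 2 (Fintype.card α + 1) := by
  have h1 := F.e_int_le (fun ω (_ : Fin 1) => ((Fintype.equivFin α (a ω) : ℕ) : ℤ)) B (Fintype.card α)
    (Nat.cast_nonneg _) (by
      intro ω ω' _ _ _ _
      have h2 := (Fintype.equivFin α (a ω)).2
      have h3 := (Fintype.equivFin α (a ω')).2
      have h4 : ((Fintype.equivFin α (a ω) : ℕ) : ℝ) < Fintype.card α := by exact_mod_cast h2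
      have h5 : ((Fintype.equivFin α (a ω') : ℕ) : ℝ) < Fintype.card α := by exact_mod_cast h3
      have h6 : (0 : ℝ) ≤ ((Fintype.equivFin α (a ω) : ℕ) : ℝ) := Nat.cast_nonneg _
      have h7 : (0 : ℝ) ≤ ((Fintype.equivFin α (a ω') : ℕ) : ℝ) := Nat.cast_nonneg _
      rw [Int.cast_natCast, Int.cast_natCast, abs_le]
      constructor <;> linarith)
  rw [Nat.cast_one, one_mul] at h1
  refine le_trans ?_ h1
  apply F.e_mono
  intro ω ω' _ _ h2 _
  have h3 : ((Fintype.equivFin α (a ω) : ℕ) : ℤ) = ((Fintype.equivFin α (a ω') : ℕ) : ℤ) := congrFun h2 0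
  have h4 : Fintype.equivFin α (a ω) = Fintype.equivFin α (a ω') := by
    apply Fin.ext
    exact_mod_cast h3
  exact (Fintype.equivFin α).injective h4

open Classical in
/-- data selected on an event -/
def sel {Ω α β : Type} (E G : Ω → Prop) (a : Ω → α) (b : Ω → β) (ω : Ω) : Option (α × β) :=
  if E ω ∧ G ω then some (a ω, b ω) else none

theorem sel_pos {Ω α β : Type} {E G : Ω → Prop} (a : Ω → α) (b : Ω → β) {ω : Ω} (h : E ω ∧ G ω) :
    sel E G a b ω = some (a ω, b ω) := by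
  unfold sel
  rw [if_pos h]

theorem sel_neg {Ω α β : Type} {E G : Ω → Prop} (a : Ω → α) (b : Ω → β) {ω : Ω} (h : ¬ (E ω ∧ G ω)) :
    sel E G a b ω = none := by
  unfold sel
  rw [if_neg h]

theorem res_res {Ω : Type} (μ : Ω → ℝ) (E G : Ω → Prop) : res (res μ E) G = res μ (fun ω => E ω ∧ G ω) := by
  classical
  funext ω
  by_cases h1 : G ω
  · rw [res_pos _ _ _ h1]
    by_cases h2 : E ω
    · rw [res_pos _ _ _ h2, res_pos _ _ _ ⟨h2, h1⟩]
    · rw [res_neg _ _ _ h2, res_neg _ _ _ (fun h => h2 h.1)]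
  · rw [res_neg _ _ _ h1, res_neg _ _ _ (fun h => h1 h.2)]

/-- probabilities in the restricted space -/
theorem pb_mul_rest (F : FSp) (E G : F.Ω → Prop) : F.pb E * (F.rest E).pb G = F.pb (fun ω => E ω ∧ G ω) := by
  have h1 : F.pb E * (F.rest E).pb G = F.pb E * ∑ ω, res (F.restμ E) G ω := rfl
  have h2 : F.pb (fun ω => E ω ∧ G ω) = ∑ ω, res (res F.μ E) G ω := by
    rw [res_res]
    rfl
  rw [h1, h2, Finset.mul_sum]
  refine Finset.sum_congr rfl fun ω _ => ?_
  have h3 : F.pb E * F.restμ E ω = res F.μ E ω := by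
    by_cases h : F.pb E = 0
    · rw [h, zero_mul, F.res_zero_of_pb E h]
    · rw [F.restμ_eq E h]
      show F.pb E * ((F.pb E)⁻¹ * res F.μ E ω) = _
      rw [← mul_assoc, mul_inv_cancel₀ h, one_mul]
  by_cases h4 : G ω
  · rw [res_pos _ _ _ h4, res_pos _ _ _ h4, h3]
  · rw [res_neg _ _ _ h4, res_neg _ _ _ h4, mul_zero]

/-- entropy of selected data -/
theorem e_sel (F : FSp) (E G : F.Ω → Prop) {α β : Type} [Fintype α] (a : F.Ω → α) (b : F.Ω → β) (B : Setoid F.Ω) :
    F.e (Setoid.ker (sel E G a b)) B ≤ (F.rest E).e (Setoid.ker b) B + (Real.logb 2 (Fintype.card α + 1) + 1) := by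
  obtain ⟨E1, hE1⟩ : ∃ E1 : F.Ω → Prop, E1 = fun ω => E ω ∧ G ω := ⟨_, rfl⟩
  have h1 := (F.e_split E1 (Setoid.ker (sel E G a b)) B).2
  have hp0 := F.pb_nonneg E1
  have hp1 := F.pb_le_one E1
  have hlog : 0 ≤ Real.logb 2 ((Fintype.card α : ℝ) + 1) := Real.logb_nonneg (by norm_num) (by
    have : (0 : ℝ) ≤ Fintype.card α := Nat.cast_nonneg _
    linarith)
  -- the complement
  have h2 : (1 - F.pb E1) * (F.rest (fun ω => ¬ E1 ω)).e (Setoid.ker (sel E G a b)) B = 0 := by
    by_cases h3 : F.pb E1 = 1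
    · rw [h3, sub_self, zero_mul]
    · have h4 : F.pb (fun ω => ¬ E1 ω) ≠ 0 := by
        intro h5
        have := F.pb_add_compl E1
        exact h3 (by linarith)
      refine mul_eq_zero_of_right _ ((F.rest (fun ω => ¬ E1 ω)).e_zero ?_)
      intro ω ω' h5 h6 _
      have h7 := (F.rest_supp _ ω h5).2 h4
      have h8 := (F.rest_supp _ ω' h6).2 h4
      rw [hE1] at h7 h8
      show sel E G a b ω = sel E G a b ω'
      rw [sel_neg a b h7, sel_neg a b h8]
  -- the event
  have h3 : F.pb E1 * (F.rest E1).e (Setoid.ker (sel E G a b)) B ≤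
      F.pb E1 * (Real.logb 2 (Fintype.card α + 1) + (F.rest E1).e (Setoid.ker b) B) := by
    by_cases h4 : F.pb E1 = 0
    · rw [h4, zero_mul, zero_mul]
    · apply mul_le_mul_of_nonneg_left _ hp0
      have h5 : (F.rest E1).e (Setoid.ker (sel E G a b)) B ≤ (F.rest E1).e (Setoid.ker a ⊓ Setoid.ker b) B := by
        apply FSp.e_mono
        intro ω ω' h6 h7 h8 _
        have h9 := (F.rest_supp _ ω h6).2 h4
        have h10 := (F.rest_supp _ ω' h7).2 h4
        rw [hE1] at h9 h10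
        show sel E G a b ω = sel E G a b ω'
        have e1 : a ω = a ω' := h8.1
        have e2 : b ω = b ω' := h8.2
        rw [sel_pos a b h9, sel_pos a b h10, e1, e2]
      refine h5.trans (((F.rest E1).e_sup_le _ _ _).trans ?_)
      have h6 := e_fin (F.rest E1) a B
      linarith
  have h4 : F.pb E1 * (F.rest E1).e (Setoid.ker b) B ≤ F.pb E * (F.rest E).e (Setoid.ker b) B := by
    have c1 := F.CH_res E1 (Quotient.mk (Setoid.ker b)) (Quotient.mk B)
    have c2 := F.CH_res E (Quotient.mk (Setoid.ker b)) (Quotient.mk B)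
    refine le_trans (le_of_eq c1.symm) (le_trans ?_ (le_of_eq c2))
    have h5 := (st_E4 st_E1 st_E3).2.1 F.Ω _ _ (res F.μ E) (Quotient.mk (Setoid.ker b)) (Quotient.mk B) G
      (F.res_nonneg E)
    have h6 : CH (res (res F.μ E) G) (Quotient.mk (Setoid.ker b)) (Quotient.mk B) +
      CH (res (res F.μ E) fun ω => ¬ G ω) (Quotient.mk (Setoid.ker b)) (Quotient.mk B) ≤
      CH (res F.μ E) (Quotient.mk (Setoid.ker b)) (Quotient.mk B) := h5.1
    have e0 : res (res F.μ E) G = res F.μ E1 := by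
      rw [res_res, hE1]
    rw [e0] at h6
    have h7 : 0 ≤ CH (res (res F.μ E) fun ω => ¬ G ω) (Quotient.mk (Setoid.ker b)) (Quotient.mk B) := by
      apply e1_nonneg
      intro ω
      by_cases h8 : ¬ G ω
      · have e1 : res (res F.μ E) (fun ω => ¬ G ω) ω = res F.μ E ω := res_pos _ (fun ω => ¬ G ω) ω h8
        rw [e1]
        exact F.res_nonneg E ω
      · have e1 : res (res F.μ E) (fun ω => ¬ G ω) ω = 0 := res_neg _ (fun ω => ¬ G ω) ω h8
        rw [e1]
    linarith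
  have h5 : F.pb E * (F.rest E).e (Setoid.ker b) B ≤ (F.rest E).e (Setoid.ker b) B :=
    mul_le_of_le_one_left ((F.rest E).e_nonneg _ _) (F.pb_le_one E)
  have h6 : F.pb E1 * Real.logb 2 (Fintype.card α + 1) ≤ Real.logb 2 (Fintype.card α + 1) :=
    mul_le_of_le_one_left hlog hp1
  rw [mul_add] at h3
  have key : ∀ x u v w t s l l' : ℝ, x ≤ u + v + 1 → v = 0 → u ≤ l' + w → w ≤ t → t ≤ s → l' ≤ l →
      x ≤ s + (l + 1) := by
    intros
    linarith
  exact key _ _ _ _ _ _ _ _ h1 h2 h3 h4 h5 h6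

variable {ι : Type} [Fintype ι] [DecidableEq ι] {S : Sp} (Φ : Gau S ι) {κ : Type}

/-- admissibility from typical bounds -/
theorem adf_mk [Finite κ] {A : κ → Part S} (x : ∀ k, FD (S.F k) ι) (hl : Lab.DMf (fun k => (x k).l) A)
    (hg : ∀ k, (x k).g' = (x k).g) (hc : ∀ᶠ k in UF, ∀ ω, (x k).l.T.μ ω ≠ 0 → Cpd (Φ.cp k) ((x k).g ω))
    (K : ℕ → ℝ) (hK : S.Sub K) (hT : ∀ᶠ k in UF, ∀ ω, (x k).l.T.μ ω ≠ 0 → Φ.φ k ((x k).l.p.π ω) ((x k).g ω) ≤ K k) :
    Φ.Adf A x := by
  intro η hη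
  filter_upwards [leak_evf hl hη, hc, hT, hK.eventually_le hη] with k a b c d
  have hn := (S.F k).pos
  have h0 : (x k).l.T.pb (fun ω => ¬ Φ.φ k ((x k).l.p.π ω) ((x k).g ω) ≤ 2 ^ (η * (S.F k).n)) ≤ η := by
    have h2 : (x k).l.T.pb (fun ω => ¬ Φ.φ k ((x k).l.p.π ω) ((x k).g ω) ≤ 2 ^ (η * (S.F k).n)) ≤
        (x k).l.T.pb (fun _ => False) := by
      apply FSp.pb_mono
      intro ω h3 h4
      exact h4 ((c ω h3).trans (by linarith))
    have h3 : (x k).l.T.pb (fun _ => False) = 0 := by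
      unfold FSp.pb mass
      apply Finset.sum_eq_zero
      intro ω _
      exact res_neg _ _ _ not_false
    linarith
  exact ⟨a, fun ω hω => ⟨b ω hω, by rw [hg]; exact b ω hω⟩, h0, by rw [hg]; exact h0⟩

end

end Pool.Agent.Helper5.HB
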