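import Pool.Agent.Helper5.HB.Cod
import Pool.Agent.Helper5.HB.Sel
import Pool.Agent.Helper5.HB.Dat
import Pool.Agent.Helper5.HB.Full
import Pool.Agent.Helper14.MC.Vopt

/-! HULL BRIDGE, converse: full volume of the canonical form gives: no polynomial relation over any label of the
conditions, on any event. -/

set_option autoImplicit false

namespace Pool.Agent.Helper5.HB

open Finset Filter Topology Matrix Pool.Agent.Helper69.RK Pool.Agent.Helper31.EC Pool.Agent.Helper31.EC.Sp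
open Pool.Agent.Helper95.LF Pool.Agent.Helper3.LF Pool.Agent.Helper84.MT Pool.Agent.Helper5.DO QS
open Pool.Agent.Helper89.LX Pool.Agent.Helper40.EL

noncomputable section

variable {S : Sp} {M D : ℕ}

theorem Sub_n_congr {S T : Sp} (hn : ∀ k, (T.F k).n = (S.F k).n) {K : ℕ → ℝ} (h : T.Sub K) : S.Sub K :=
  ⟨h.1, h.2.congr fun k => by rw [hn k]⟩

theorem Sub_ccf {K : ℕ → ℝ} (hK : S.Sub K) (N d : ℕ) : S.Sub (fun k => ccf N (K k) d) := by
  induction d with
  | zero => exact S.Sub_const zero_le_one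
  | succ d ih =>
    exact (((S.Sub_const zero_le_one).add ((S.Sub_const (Nat.cast_nonneg _)).mul (Sub_pow' hK (d + 1)))).mul ih)

theorem Sub_cgr {K : ℕ → ℝ} (hK : S.Sub K) (N D : ℕ) : S.Sub (fun k => cgr N D (K k)) :=
  (S.Sub_const (by positivity)).mul ((S.Sub_const (by positivity)).mul
    (Sub_pow' (hK.add (S.Sub_const zero_le_one)) D))

/-- the coefficients from the cells -/
def dec (δ : ℝ) (N : ℕ) (e : Mon M D ≃ Fin N) (z : Fin N → ℤ) : Mon M D → ℝ := fun a => δ * z (e a)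

/-- the form from the data -/
def frm (c δ β n : ℝ) (N : ℕ) (e : Mon M D ≃ Fin N) (o : Option (Cd M D × (Fin N → ℤ))) :
    Matrix (Mon M D) (Mon M D) ℝ :=
  o.elim 1 (fun p => capd c (nfm (wgt β n D p.1) (dvec p.1.L (nrm (dec δ N e p.2)))))

theorem frm_Cpd {c : ℝ} (hc : 1 ≤ c) (δ β n : ℝ) (N : ℕ) (e : Mon M D ≃ Fin N) (o : Option (Cd M D × (Fin N → ℤ))) :
    Cpd c (frm c δ β n N e o) := by
  cases o with
  | none => exact Cpd_one hc
  | some p => exact capd_Cpd hc _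

/-- an admissible form with a large exponent on an event of positive probability has less than full volume -/
theorem vol_lt {κ : Type} {A : κ → Part S} (Q : S.VV M) {y : ∀ k, FD (S.F k) (Mon M D)}
    (hy : (gaq Q D).Adf A y) {β p0 : ℝ} (hβ : 0 < β) (hp0 : 0 < p0) (G : ∀ k, (y k).l.T.Ω → Prop)
    (hp : ∀ᶠ k in UF, p0 ≤ (y k).l.T.pb (G k)) (hG : ∀ᶠ k in UF, ∀ ω, (y k).l.T.μ ω ≠ 0 → G k ω →
      2 ^ (2 * β * (S.F k).n) ≤ GQ (S.dl 1 k) ((y k).g ω) (Q.v k ((y k).l.p.π ω))) : vol Q D y < M := by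
  classical
  rw [Pool.Agent.Helper14.MC.vol_eq]
  have h1 : p0 * β ≤ ul (Pool.Agent.Helper14.MC.vx Q y) := by
    apply const_le_ul (Pool.Agent.Helper14.MC.vx_UB hy)
    filter_upwards [hp, hG, hy 1 one_pos] with k k1 k2 k3
    have hn := (S.F k).pos
    unfold Pool.Agent.Helper14.MC.vx
    have h2 : (y k).l.T.pb (G k) * β ≤ ∑ ω, (y k).l.T.μ ω *
        Pool.Agent.Helper14.MC.gx Q k ((y k).l.p.π ω) ((y k).g ω) := by
      unfold FSp.pb mass
      rw [Finset.sum_mul]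
      apply Finset.sum_le_sum
      intro ω _
      by_cases h0 : (y k).l.T.μ ω = 0
      · have h3 : res (y k).l.T.μ (G k) ω = 0 := by
          by_cases h4 : G k ω
          · rw [res_pos _ _ _ h4, h0]
          · rw [res_neg _ _ _ h4]
        rw [h3, h0, zero_mul, zero_mul]
      · have c1 := (k3.2.1 ω h0).1
        have h4 := one_le_GQ (S.dl 1 k) c1.1 c1.psd.2 (Q.v k ((y k).l.p.π ω))
        by_cases h5 : G k ω
        · rw [res_pos _ _ _ h5]
          apply mul_le_mul_of_nonneg_left _ ((y k).l.T.nn ω)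
          have h6 := Real.logb_le_logb_of_le (b := 2) (by norm_num) (by positivity) (k2 ω h0 h5)
          rw [Real.logb_rpow (by norm_num) (by norm_num)] at h6
          unfold Pool.Agent.Helper14.MC.gx
          rw [le_div_iff₀ (by positivity)]
          linarith
        · rw [res_neg _ _ _ h5, zero_mul]
          apply mul_nonneg ((y k).l.T.nn ω)
          exact div_nonneg (Real.logb_nonneg (by norm_num) h4) (by positivity)
    exact (mul_le_mul_of_nonneg_right k1 hβ.le).trans h2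
  have h2 : 0 < p0 * β := mul_pos hp0 hβ
  linarith

/-- HB2: full volume: no relation -/
theorem NRl_of_vol {κ : Type} [Finite κ] {A : κ → Part S} (Q : S.VV M) {x : ∀ k, FD (S.F k) (Mon M D)}
    (hx : (gaq Q D).Optf A x) (hv : (M : ℝ) ≤ vol Q D x) {l : Lab S} (hl : l.DMf A) : NRl D l Q := by
  classical
  intro E hE r hr0 hr1
  by_contra hno
  obtain ⟨c, a0, ε, K1, he0, he1, hdg, hK1, hT, hpos⟩ := rel_data ((oQ l Q).rest E) hr1 hno
  have hWn : ∀ k, (((l.ovr 1 one_pos).rest E).F k).n = (S.F k).n := fun k => ovr_n l k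
  obtain ⟨N, hN⟩ : ∃ N, N = Fintype.card (Mon M D) := ⟨_, rfl⟩
  have e : Mon M D ≃ Fin N := by
    rw [hN]
    exact Fintype.equivFin _
  obtain ⟨y, hy⟩ : ∃ y : ((l.ovr 1 one_pos).rest E).VV N, y = TR.vec (fun j => c (e.symm j)) := ⟨_, rfl⟩
  have hyd : y.dg 1 ≤ ⊥ := by
    rw [hy]
    exact TR.vec_dg_le _ _ _ fun j => hdg _
  have hent := ent_data y hyd
  obtain ⟨β, hβ⟩ : ∃ β, β = ε / (2 * (D + 1)) := ⟨_, rfl⟩
  have hβ0 : 0 < β := by rw [hβ]; positivity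
  have hβε : β * (D + 1) = ε / 2 := by rw [hβ]; field_simp
  -- the data
  obtain ⟨z, hz⟩ : ∃ z : ∀ k, (l k).T.Ω → Fin N → ℤ, z = fun k => y.cellv 1 k := ⟨_, rfl⟩
  obtain ⟨G, hG⟩ : ∃ G : ∀ k, (l k).T.Ω → Prop, G = fun k ω =>
      (|∑ a, TR.ev (c a) k ω * vv (Q.v k ((l k).p.π ω)) a| ≤ K1 k * 2 ^ (-(r * (S.F k).n))) ∧
      ¬ |TR.ev (c a0) k ω| ≤ 2 ^ (-((r - ε) * (S.F k).n)) := ⟨_, rfl⟩
  obtain ⟨cd, hcd⟩ : ∃ cd : ∀ k, (l k).T.Ω → Cd M D, cd = fun k ω =>
    cdn β (S.F k).n D (pol (nrm (dec (S.dl 1 k) N e (z k ω)))) (Q.v k ((l k).p.π ω)) := ⟨_, rfl⟩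
  obtain ⟨sl, hsl⟩ : ∃ sl : ∀ k, (l k).T.Ω → Option (Cd M D × (Fin N → ℤ)), sl = fun k =>
    sel (E k) (G k) (cd k) (z k) := ⟨_, rfl⟩
  have hl2 : (l.addW fun k => Setoid.ker (sl k)).DMf A := by
    apply Lab.DMf.addW hl
    intro i
    have h1 : Nul S (fun k => (((l.ovr 1 one_pos).rest E).F k).e (Setoid.ker (y.cellv 1 k))
        (((l.ovr 1 one_pos).rest E).F k).Z + (Real.logb 2 (Fintype.card (Cd M D) + 1) + 1)) := by
      apply Nul.add
      · exact hent.congr fun k => by rw [hWn k]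
      · exact S.div_n_tendsto _
    refine h1.of_le (Eventually.of_forall fun k => h_nonneg _ _) (Eventually.of_forall fun k => ?_)
    have h2 : h (fc (Setoid.ker (sl k)) : FL (l k).T) ((l k).v ⊔ (l k).p.map (A i k)) ≤
        h (fc (Setoid.ker (sl k)) : FL (l k).T) (l k).v := h_anti le_sup_left
    refine h2.trans ?_
    have h3 : h (fc (Setoid.ker (sl k)) : FL (l k).T) (l k).v =
        (l k).T.e (Setoid.ker (sl k)) ((l k).V ⊓ (l k).T.Z) := h_fc _ _
    rw [h3, hsl]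
    have h4 := e_sel (l k).T (E k) (G k) (cd k) (z k) ((l k).V ⊓ (l k).T.Z)
    refine h4.trans (le_of_eq ?_)
    rw [hz]
    rfl
  -- bounds
  obtain ⟨K, hK, hQ⟩ := Q.bd
  obtain ⟨K0, hK0, hone⟩ := (gaq Q D).one
  have hK1S : S.Sub K1 := Sub_n_congr hWn hK1
  have hKK : S.Sub (fun k => K k + 1) := hK.add (S.Sub_const zero_le_one)
  have hK2 : S.Sub (fun k => nn M D * (1 + M * cgr M D (K k + 1)) ^ 2) :=
    (S.Sub_const (by have := nn_one M D; linarith)).mul (Sub_pow' ((S.Sub_const zero_le_one).add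
      ((S.Sub_const (Nat.cast_nonneg M)).mul (Sub_cgr hKK M D))) 2)
  have hK3 : S.Sub (fun k => K0 k + nn M D * (1 + M * cgr M D (K k + 1)) ^ 2) := hK0.add hK2
  have hb2 : S.Sub (fun k => 2 * (K1 k + Fintype.card (Mon M D) * (K k + 1) ^ D)) :=
    (S.Sub_const (by norm_num)).mul (hK1S.add ((S.Sub_const (Nat.cast_nonneg _)).mul (Sub_pow' hKK D)))
  have hb3 := Sub_ccf hKK M D
  have hnk : ∀ᶠ k in UF, (1 / ε : ℝ) ≤ (S.F k).n := S.lim.eventually (eventually_ge_atTop _)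
  -- the points of the event
  have hpt : ∀ᶠ k in UF, ∀ ω, (l k).T.μ ω ≠ 0 → G k ω →
      wgt β (S.F k).n D (cd k ω) * ph D (pol (dvec (cd k ω).L (nrm (dec (S.dl 1 k) N e (z k ω))))) (S.dl 1 k)
        (Q.v k ((l k).p.π ω)) ≤ nn M D * (1 + M * cgr M D (K k + 1)) ^ 2 ∧
      ∀ r, 2 ^ (2 * β * (S.F k).n) ≤ GQ r (nfm (wgt β (S.F k).n D (cd k ω))
        (dvec (cd k ω).L (nrm (dec (S.dl 1 k) N e (z k ω))))) (Q.v k ((l k).p.π ω)) := by
    filter_upwards [hQ, hK.1, hK1.1, hb2.eventually_le (half_pos he0), hb3.eventually_le hβ0, hnk] with k k1 k2 k3 k4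
      k5 k6 ω hω hGω
    have hn := (S.F k).pos
    have hdl : S.dl 1 k = 2 ^ (-(S.F k).n) := by
      unfold Sp.dl
      rw [one_mul]
    have hxb : ∀ i, |Q.v k ((l k).p.π ω) i| ≤ K k + 1 := fun i => by
      have := k1 _ ((l k).p.supp ω hω) i
      linarith
    rw [hG] at hGω
    have h1 : ∀ a, |dec (S.dl 1 k) N e (z k ω) a - TR.ev (c a) k ω| ≤ 2 ^ (-(S.F k).n) := by
      intro a
      rw [← hdl]
      have h2 : z k ω (e a) = ⌊TR.ev (c a) k ω / S.dl 1 k⌋ := by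
        rw [hz, hy]
        show ⌊TR.ev (c (e.symm (e a))) k ω / ((l.ovr 1 one_pos).rest E).dl 1 k⌋ = _
        rw [e.symm_apply_apply]
        have h3 : ((l.ovr 1 one_pos).rest E).dl 1 k = S.dl 1 k := ovr_dl l 1 k
        rw [h3]
      unfold dec
      rw [h2]
      have hd := S.dl_pos 1 k
      have h3 := Int.floor_le (TR.ev (c a) k ω / S.dl 1 k)
      have h4 := Int.lt_floor_add_one (TR.ev (c a) k ω / S.dl 1 k)
      rw [le_div_iff₀ hd] at h3
      rw [div_lt_iff₀ hd, add_mul, one_mul] at h4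
      rw [abs_le]
      constructor <;> linarith
    have hgd : Gd β (S.F k).n (pol (nrm (dec (S.dl 1 k) N e (z k ω)))) (Q.v k ((l k).p.π ω)) (cd k ω) := by
      rw [hcd]
      apply cdn_spec
      refine core1 (ε := ε) (r := r) (K := K k + 1) (K1 := K1 k) hn hβ0 hβε hr1 (by linarith) k3 (fun a => TR.ev (c a) k ω)
        _ h1 _ hxb hGω.1 a0 (not_le.mp hGω.2) ?_ (by linarith) (by linarith)
      have h2 : (1 : ℝ) ≤ ε * (S.F k).n := by
        rw [div_le_iff₀ he0] at k6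
        linarith
      have e2 : (2 : ℝ) * 2 ^ (-(S.F k).n) = 2 ^ (1 + -(S.F k).n) := by
        rw [Real.rpow_add (by norm_num), Real.rpow_one]
      rw [e2]
      apply Real.rpow_le_rpow_of_exponent_le (by norm_num)
      have h3 : r * (S.F k).n ≤ 1 * (S.F k).n := mul_le_mul_of_nonneg_right hr1 hn.le
      linarith
    have h2 := core2 (K := K k + 1) hn hβ0 hβε he1 (by linarith) (dec (S.dl 1 k) N e (z k ω)) (Q.v k ((l k).p.π ω)) hxb
      (cd k ω) hgd
    rw [← hdl] at h2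
    exact h2
  -- the forms
  let yF : ∀ k, FD (S.F k) (Mon M D) := fun k => mkFD ((l.addW fun k => Setoid.ker (sl k)) k)
      (fun ω => frm ((gaq Q D).cp k) (S.dl 1 k) β (S.F k).n N e (sl k ω)) (by
        intro ω ω' _ _ hV _
        have h1 : sl k ω = sl k ω' := hV.2
        rw [h1])
  have hfull : ∀ᶠ k in UF, ∀ ω, (l k).T.μ ω ≠ 0 → E k ω ∧ G k ω →
      phi (S.dl 1 k) (frm ((gaq Q D).cp k) (S.dl 1 k) β (S.F k).n N e (sl k ω)) (Q.v k ((l k).p.π ω)) ≤
        K0 k + nn M D * (1 + M * cgr M D (K k + 1)) ^ 2 ∧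
      2 ^ (2 * β * (S.F k).n) ≤ GQ (S.dl 1 k) (frm ((gaq Q D).cp k) (S.dl 1 k) β (S.F k).n N e (sl k ω))
        (Q.v k ((l k).p.π ω)) := by
    filter_upwards [hpt, hone, (gaq Q D).cap, hK3.eventually_le one_pos] with k k1 k2 k3 k4 ω hω hEG
    obtain ⟨h1, h2⟩ := k1 ω hω hEG.2
    have h3 := k2 _ ((l k).p.supp ω hω)
    have h4 : phi (S.dl 1 k) (nfm (wgt β (S.F k).n D (cd k ω))
        (dvec (cd k ω).L (nrm (dec (S.dl 1 k) N e (z k ω))))) (Q.v k ((l k).p.π ω)) ≤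
        K0 k + nn M D * (1 + M * cgr M D (K k + 1)) ^ 2 := by
      rw [nfm_phi]
      exact add_le_add h3 h1
    have hw := (wgt_pos β (S.F k).n (cd k ω)).le
    have h5 : Cpd ((gaq Q D).cp k) (nfm (wgt β (S.F k).n D (cd k ω))
        (dvec (cd k ω).L (nrm (dec (S.dl 1 k) N e (z k ω))))) := by
      have g2 : PdM (nfm (wgt β (S.F k).n D (cd k ω))
        (dvec (cd k ω).L (nrm (dec (S.dl 1 k) N e (z k ω))))) := pdM_of_one_le (nfm_symm _ _) (nfm_one_le hw _)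
      refine ⟨nfm_symm _ _, nfm_one_le hw _, fun v => ?_⟩
      refine (k3 _ ((l k).p.supp ω hω) _ g2 v).trans ?_
      apply mul_le_mul_of_nonneg_right _ (dot_self_nonneg v)
      unfold Gau.cp
      rw [add_mul, Real.rpow_add (by norm_num)]
      apply mul_le_mul_of_nonneg_left _ (by positivity)
      have g3 : (gaq Q D).φ k ((l k).p.π ω) (nfm (wgt β (S.F k).n D (cd k ω))
        (dvec (cd k ω).L (nrm (dec (S.dl 1 k) N e (z k ω))))) ≤ K0 k + nn M D * (1 + M * cgr M D (K k + 1)) ^ 2 := h4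
      linarith
    have h6 : sl k ω = some (cd k ω, z k ω) := by
      rw [hsl]
      exact sel_pos _ _ hEG
    have h7 : frm ((gaq Q D).cp k) (S.dl 1 k) β (S.F k).n N e (sl k ω) = nfm (wgt β (S.F k).n D (cd k ω))
        (dvec (cd k ω).L (nrm (dec (S.dl 1 k) N e (z k ω)))) := by
      rw [h6]
      exact capd_eq h5
    rw [h7]
    exact ⟨h4, h2 _⟩
  have had : (gaq Q D).Adf A yF := by
    apply adf_mk (gaq Q D) yF hl2 (fun k => rfl) (Eventually.of_forall fun k ω _ =>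
      frm_Cpd ((gaq Q D).one_le_cp k) _ _ _ _ _ _) _ hK3
    filter_upwards [hfull, hone, hK2.1] with k k1 k2 k3 ω hω
    by_cases h1 : E k ω ∧ G k ω
    · exact (k1 ω hω h1).1
    · have h2 : sl k ω = none := by
        rw [hsl]
        exact sel_neg _ _ h1
      have h3 := k2 _ ((l k).p.supp ω hω)
      show phi (S.dl 1 k) (frm ((gaq Q D).cp k) (S.dl 1 k) β (S.F k).n N e (sl k ω)) (Q.v k ((l k).p.π ω)) ≤ _
      rw [h2]
      have h4 : (gaq Q D).φ k ((l k).p.π ω) 1 ≤ K0 k + nn M D * (1 + M * cgr M D (K k + 1)) ^ 2 := by linarith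
      exact h4
  -- the probability of the event
  obtain ⟨p1, hp1⟩ : ∃ p1, p1 = ul ((l.ovr 1 one_pos).pr E) := ⟨_, rfl⟩
  obtain ⟨p2, hp2⟩ : ∃ p2, p2 = ul (((l.ovr 1 one_pos).rest E).pr
    (fun k ω => ¬ |TR.ev (c a0) k ω| ≤ 2 ^ (-((r - ε) * (((l.ovr 1 one_pos).rest E).F k).n)))) := ⟨_, rfl⟩
  rw [← hp1] at hE
  rw [← hp2] at hpos
  have hpr : ∀ᶠ k in UF, p1 / 2 * (p2 / 2) ≤ (l k).T.pb (fun ω => E k ω ∧ G k ω) := by
    have t1 := ul_tendsto (UB_pr (S := l.ovr 1 one_pos) E)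
    have t2 := ul_tendsto (UB_pr (S := (l.ovr 1 one_pos).rest E)
      (fun k ω => ¬ |TR.ev (c a0) k ω| ≤ 2 ^ (-((r - ε) * (((l.ovr 1 one_pos).rest E).F k).n))))
    rw [← hp1] at t1
    rw [← hp2] at t2
    have t3 : Tendsto (((l.ovr 1 one_pos).rest E).pr (fun k ω => ¬ |∑ a, TR.ev (c a) k ω *
        vv (((oQ l Q).rest E).v k ω) a| ≤ K1 k * ((l.ovr 1 one_pos).rest E).dl r k)) UF (𝓝 0) := hT
    filter_upwards [t1.eventually (lt_mem_nhds (half_lt_self hE)), t2.eventually (lt_mem_nhds (show p2 * (3 / 4) < p2 by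
      linarith)), t3.eventually (gt_mem_nhds (show 0 < p2 / 4 by linarith))] with k k1 k2 k3
    have h1 : p1 / 2 < (l k).T.pb (E k) := k1
    have h2 : p2 * (3 / 4) < ((l k).T.rest (E k)).pb (fun ω => ¬ |TR.ev (c a0) k ω| ≤ 2 ^ (-((r - ε) * (S.F k).n))) := by
      have h3 : p2 * (3 / 4) < ((l k).T.rest (E k)).pb (fun ω => ¬ |TR.ev (c a0) k ω| ≤
        2 ^ (-((r - ε) * (((l.ovr 1 one_pos).rest E).F k).n))) := k2
      rw [hWn] at h3
      exact h3
    have h3 : ((l k).T.rest (E k)).pb (fun ω => ¬ |∑ a, TR.ev (c a) k ω * vv (Q.v k ((l k).p.π ω)) a| ≤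
        K1 k * 2 ^ (-(r * (S.F k).n))) < p2 / 4 := by
      have h4 : ((l.ovr 1 one_pos).rest E).dl r k = 2 ^ (-(r * (S.F k).n)) := ovr_dl l r k
      have h5 : ((l k).T.rest (E k)).pb (fun ω => ¬ |∑ a, TR.ev (c a) k ω * vv (Q.v k ((l k).p.π ω)) a| ≤
        K1 k * ((l.ovr 1 one_pos).rest E).dl r k) < p2 / 4 := k3
      rw [h4] at h5
      exact h5
    rw [← pb_mul_rest]
    apply mul_le_mul h1.le _ (by linarith) ((l k).T.pb_nonneg _)
    have h4 : ((l k).T.rest (E k)).pb (fun ω => ¬ |TR.ev (c a0) k ω| ≤ 2 ^ (-((r - ε) * (S.F k).n))) ≤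
        ((l k).T.rest (E k)).pb (G k) + ((l k).T.rest (E k)).pb (fun ω => ¬ |∑ a, TR.ev (c a) k ω *
          vv (Q.v k ((l k).p.π ω)) a| ≤ K1 k * 2 ^ (-(r * (S.F k).n))) := by
      refine le_trans (FSp.pb_mono ((l k).T.rest (E k)) (E' := fun ω => G k ω ∨ ¬ |∑ a, TR.ev (c a) k ω *
          vv (Q.v k ((l k).p.π ω)) a| ≤ K1 k * 2 ^ (-(r * (S.F k).n))) ?_) (pb_or _ _ _)
      intro ω _ h5
      by_cases h6 : |∑ a, TR.ev (c a) k ω * vv (Q.v k ((l k).p.π ω)) a| ≤ K1 k * 2 ^ (-(r * (S.F k).n))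
      · left
        rw [hG]
        exact ⟨h6, h5⟩
      · exact Or.inr h6
    linarith
  have hlt := vol_lt Q had (p0 := p1 / 2 * (p2 / 2)) hβ0 (by positivity)
    (fun k (ω : (l k).T.Ω) => E k ω ∧ G k ω) hpr (by
      filter_upwards [hfull] with k k1 ω hω h1
      exact (k1 ω hω h1).2)
  have hle := Pool.Agent.Helper14.MC.vol_opt_le hx had
  linarith

end

end Pool.Agent.Helper5.HB
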