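import Pool.Agent.Helper3.LF.Spa
import Pool.Agent.Helper84.MT.Seg
import Pool.Agent.Helper84.MT.Vol

/-! HULL BRIDGE, converse: a polynomial with a large coefficient which is small at a point has an iterated derivative
which is small at the point and has a much larger gradient. -/

set_option autoImplicit false

namespace Pool.Agent.Helper5.HB

open MvPolynomial Matrix Pool.Agent.Helper3.LF Pool.Agent.Helper84.MT Pool.Agent.Helper89.LX
open Pool.Agent.Helper95.LF (PdM)

noncomputable section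

variable {N D : ℕ}

/-- iterated derivatives -/
def der (L : List (Fin N)) (q : MvPolynomial (Fin N) ℝ) : MvPolynomial (Fin N) ℝ :=
  L.foldr (fun i p => pderiv i p) q

theorem der_nil (q : MvPolynomial (Fin N) ℝ) : der [] q = q := rfl

theorem der_cons (i : Fin N) (L : List (Fin N)) (q : MvPolynomial (Fin N) ℝ) :
    der (i :: L) q = pderiv i (der L q) := rfl

theorem der_append (L L' : List (Fin N)) (q : MvPolynomial (Fin N) ℝ) : der (L ++ L') q = der L (der L' q) := by
  unfold der
  rw [List.foldr_append]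

theorem der_deg (L : List (Fin N)) (q : MvPolynomial (Fin N) ℝ) (hq : q.totalDegree ≤ D) :
    (der L q).totalDegree ≤ D := by
  induction L with
  | nil => exact hq
  | cons i L ih => exact pderiv_tdeg _ ih i

theorem der_coef (L : List (Fin N)) (q : MvPolynomial (Fin N) ℝ) (hq : q.totalDegree ≤ D) (B : ℝ) (hB0 : 0 ≤ B)
    (hB : ∀ m, |coeff m q| ≤ B) : ∀ m, |coeff m (der L q)| ≤ (D : ℝ) ^ L.length * B := by
  induction L with
  | nil =>
    intro m
    rw [der_nil, List.length_nil, pow_zero, one_mul]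
    exact hB m
  | cons i L ih =>
    intro m
    rw [der_cons, coeff_pderiv, List.length_cons, pow_succ, abs_mul]
    by_cases h0 : coeff (m + Finsupp.single i 1) (der L q) = 0
    · rw [h0, abs_zero, zero_mul]
      positivity
    · have h1 := le_totalDegree (mem_support_iff.mpr h0)
      have h2 := h1.trans (der_deg L q hq)
      have h3 : ((m + Finsupp.single i 1).sum fun _ e => e) = (m.sum fun _ e => e) + 1 := by
        rw [Finsupp.sum_add_index' (fun _ => rfl) (fun _ _ _ => rfl), Finsupp.sum_single_index rfl]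
      have h4 : m i ≤ m.sum fun _ e => e := by
        by_cases h5 : i ∈ m.support
        · exact Finset.single_le_sum (f := fun j => m j) (fun _ _ => Nat.zero_le _) h5
        · rw [Finsupp.notMem_support_iff.mp h5]
          exact Nat.zero_le _
      have h5 : ((m i : ℝ) + 1) ≤ D := by
        have : m i + 1 ≤ D := by omega
        exact_mod_cast this
      have h6 : |(m i : ℝ) + 1| ≤ D := by
        rw [abs_of_nonneg (by positivity)]
        exact h5
      calc |coeff (m + Finsupp.single i 1) (der L q)| * |(m i : ℝ) + 1| ≤ ((D : ℝ) ^ L.length * B) * D :=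
            mul_le_mul (ih _) h6 (abs_nonneg _) (by positivity)
        _ = _ := by ring

/-- constant of the bound of the coefficients by the derivatives -/
def ccf (N : ℕ) (K : ℝ) : ℕ → ℝ
  | 0 => 1
  | d + 1 => (1 + Fintype.card (Mon N (d + 1)) * K ^ (d + 1)) * ccf N K d

theorem one_le_ccf {K : ℝ} (hK : 0 ≤ K) (d : ℕ) : 1 ≤ ccf N K d := by
  induction d with
  | zero => exact le_rfl
  | succ d ih =>
    unfold ccf
    have h1 : (1 : ℝ) ≤ 1 + Fintype.card (Mon N (d + 1)) * K ^ (d + 1) := by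
      have : 0 ≤ (Fintype.card (Mon N (d + 1)) : ℝ) * K ^ (d + 1) := by positivity
      linarith
    exact one_le_mul_of_one_le_of_one_le h1 ih

theorem vv_le {K : ℝ} (hK : 1 ≤ K) (x : Fin N → ℝ) (hx : ∀ i, |x i| ≤ K) (a : Mon N D) : |vv x a| ≤ K ^ D := by
  rw [vv_apply, Finset.abs_prod]
  calc ∏ i, |x i ^ (a.1 i : ℕ)| ≤ ∏ i, K ^ (a.1 i : ℕ) := by
        apply Finset.prod_le_prod (fun _ _ => abs_nonneg _)
        intro i _
        rw [abs_pow]
        exact pow_le_pow_left₀ (abs_nonneg _) (hx i) _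
    _ = K ^ (∑ i, (a.1 i : ℕ)) := (Finset.prod_pow_eq_pow_sum _ _ _)
    _ ≤ K ^ D := pow_le_pow_right₀ hK a.2

/-- the coefficients are bounded by the derivatives at a point -/
theorem coef_le {K : ℝ} (hK : 1 ≤ K) (x : Fin N → ℝ) (hx : ∀ i, |x i| ≤ K) : ∀ (d : ℕ) (q : MvPolynomial (Fin N) ℝ),
    q.totalDegree ≤ d → ∀ τ : ℝ, 0 ≤ τ → (∀ L : List (Fin N), L.length ≤ d → |eval x (der L q)| ≤ τ) →
      ∀ m, |coeff m q| ≤ ccf N K d * τ := by
  classical
  intro d
  induction d with
  | zero =>
    intro q hq τ h0 h m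
    have h1 : q = C (coeff 0 q) := (totalDegree_eq_zero_iff_eq_C).mp (Nat.le_zero.mp hq)
    have h2 := h [] le_rfl
    rw [der_nil, h1, eval_C] at h2
    rw [h1, coeff_C]
    show _ ≤ 1 * τ
    rw [one_mul]
    split_ifs
    · exact h2
    · rw [abs_zero]; exact h0
  | succ d ih =>
    intro q hq τ h0 h m
    have hc1 := one_le_ccf (N := N) (by linarith : (0 : ℝ) ≤ K) d
    have hne : ∀ m : Fin N →₀ ℕ, m ≠ 0 → |coeff m q| ≤ ccf N K d * τ := by
      intro m hm
      obtain ⟨i, hi⟩ : ∃ i, m i ≠ 0 := by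
        by_contra hc
        push Not at hc
        exact hm (Finsupp.ext hc)
      have h1 := ih (pderiv i q) (tdeg_pderiv i q d hq) τ h0 (by
        intro L hL
        have h2 := h (L ++ [i]) (by rw [List.length_append, List.length_singleton]; omega)
        rw [der_append] at h2
        exact h2) (m - Finsupp.single i 1)
      rw [coeff_pderiv] at h1
      have h3 : m - Finsupp.single i 1 + Finsupp.single i 1 = m := by
        apply tsub_add_cancel_of_le
        rw [Finsupp.single_le_iff]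
        exact Nat.one_le_iff_ne_zero.mpr hi
      rw [h3, abs_mul] at h1
      refine le_trans ?_ h1
      apply le_mul_of_one_le_right (abs_nonneg _)
      obtain ⟨m', hm'⟩ : ∃ m' : Fin N →₀ ℕ, m' = m - Finsupp.single i 1 := ⟨_, rfl⟩
      rw [← hm', abs_of_nonneg (by positivity)]
      have : (0 : ℝ) ≤ (m' i : ℕ) := Nat.cast_nonneg _
      linarith
    have hK1 : (0 : ℝ) ≤ K ^ (d + 1) := by positivity
    by_cases hm : m = 0
    · subst hm
      obtain ⟨c, hc⟩ := exists_pol q hq
      have h1 := h [] (Nat.zero_le _)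
      rw [der_nil, hc, eval_pol] at h1
      have h2 : c ⬝ᵥ vv x = c (Mon.zero N (d + 1)) + ∑ a ∈ Finset.univ.erase (Mon.zero N (d + 1)), c a * vv x a := by
        unfold dotProduct
        rw [← Finset.add_sum_erase _ _ (Finset.mem_univ (Mon.zero N (d + 1))), vv_zero, mul_one]
      have hz : (Mon.zero N (d + 1)).ex = 0 := by
        ext i
        rw [Mon.ex_apply]
        rfl
      have h3 : coeff 0 q = c (Mon.zero N (d + 1)) := by
        rw [hc, ← hz, coeff_pol]
      have h4 : ∀ a ∈ Finset.univ.erase (Mon.zero N (d + 1)), |c a * vv x a| ≤ (ccf N K d * τ) * K ^ (d + 1) := by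
        intro a ha
        have h5 : a.ex ≠ 0 := by
          intro h6
          apply (Finset.mem_erase.mp ha).1
          rw [← hz] at h6
          apply Subtype.ext
          funext i
          apply Fin.ext
          exact DFunLike.congr_fun h6 i
        have h6 := hne a.ex h5
        rw [hc, coeff_pol] at h6
        rw [abs_mul]
        exact mul_le_mul h6 (vv_le hK x hx a) (abs_nonneg _) (by positivity)
      have h5 : |∑ a ∈ Finset.univ.erase (Mon.zero N (d + 1)), c a * vv x a| ≤
          Fintype.card (Mon N (d + 1)) * ((ccf N K d * τ) * K ^ (d + 1)) := by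
        refine (Finset.abs_sum_le_sum_abs _ _).trans ((Finset.sum_le_card_nsmul _ _ _ h4).trans ?_)
        rw [nsmul_eq_mul]
        apply mul_le_mul_of_nonneg_right _ (by positivity)
        exact_mod_cast Finset.card_le_univ _
      rw [h3]
      have h6 : c (Mon.zero N (d + 1)) = c ⬝ᵥ vv x - ∑ a ∈ Finset.univ.erase (Mon.zero N (d + 1)), c a * vv x a := by
        rw [h2]; ring
      rw [h6]
      have h7 : τ ≤ ccf N K d * τ := le_mul_of_one_le_left h0 hc1
      have h8 := abs_sub (c ⬝ᵥ vv x) (∑ a ∈ Finset.univ.erase (Mon.zero N (d + 1)), c a * vv x a)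
      have h9 : ccf N K (d + 1) * τ = ccf N K d * τ + Fintype.card (Mon N (d + 1)) * ((ccf N K d * τ) * K ^ (d + 1)) := by
        show (1 + Fintype.card (Mon N (d + 1)) * K ^ (d + 1)) * ccf N K d * τ = _
        ring
      rw [h9]
      linarith
    · refine (hne m hm).trans ?_
      apply mul_le_mul_of_nonneg_right _ h0
      show _ ≤ (1 + Fintype.card (Mon N (d + 1)) * K ^ (d + 1)) * ccf N K d
      apply le_mul_of_one_le_left (by linarith)
      have : 0 ≤ (Fintype.card (Mon N (d + 1)) : ℝ) * K ^ (d + 1) := by positivity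
      linarith

/-- THE CHAIN -/
theorem chn {K : ℝ} (hK : 1 ≤ K) (x : Fin N → ℝ) (hx : ∀ i, |x i| ≤ K) (q : MvPolynomial (Fin N) ℝ)
    (hq : q.totalDegree ≤ D) (τ : ℕ → ℝ) (hτ0 : ∀ j, 0 ≤ τ j) (hτ : Monotone τ) (h0 : |eval x q| ≤ τ 0)
    (m : Fin N →₀ ℕ) (hm : ccf N K D * τ D < |coeff m q|) : ∃ (L : List (Fin N)) (i : Fin N), L.length + 1 ≤ D ∧
      |eval x (der L q)| ≤ τ L.length ∧ τ (L.length + 1) < |eval x (pderiv i (der L q))| := by
  by_contra hc
  push Not at hc
  have h1 : ∀ n, ∀ L : List (Fin N), L.length = n → n ≤ D → |eval x (der L q)| ≤ τ n := by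
    intro n
    induction n with
    | zero =>
      intro L hL _
      rw [List.length_eq_zero_iff.mp hL]
      exact h0
    | succ n ih =>
      intro L hL hn
      match L with
      | [] => simp at hL
      | i :: L =>
        have h2 : L.length = n := by simpa using hL
        have h3 := ih L h2 (by omega)
        rw [← h2] at h3 hn ⊢
        exact hc L i hn h3
  have h2 := coef_le hK x hx D q hq (τ D) (hτ0 D) (by
    intro L hL
    exact (h1 L.length L rfl hL).trans (hτ hL)) m
  linarith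

/-- the coefficient vector of an iterated derivative of the polynomial with coefficient vector `c` -/
def dvec (L : List (Fin N)) (c : Mon N D → ℝ) : Mon N D → ℝ := fun a => coeff a.ex (der L (pol c))

theorem pol_dvec (L : List (Fin N)) (c : Mon N D → ℝ) : pol (dvec L c) = der L (pol c) := by
  obtain ⟨e, he⟩ := exists_pol (der L (pol c)) (der_deg (D := D) L _ (pol_deg c))
  have h1 : dvec L c = e := by
    funext a
    unfold dvec
    rw [he, coeff_pol]
  rw [h1, ← he]

theorem coeff_pol_le (c : Mon N D → ℝ) {B : ℝ} (hB : 0 ≤ B) (h : ∀ a, |c a| ≤ B) (m : Fin N →₀ ℕ) :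
    |coeff m (pol c)| ≤ B := by
  by_cases h0 : coeff m (pol c) = 0
  · rw [h0, abs_zero]; exact hB
  · have h1 := (le_totalDegree (mem_support_iff.mpr h0)).trans (pol_deg c)
    rw [Finsupp.sum_fintype _ _ (fun _ => rfl)] at h1
    have h2 : ∀ i, m i < D + 1 := fun i =>
      Nat.lt_succ_of_le ((Finset.single_le_sum (f := fun i => m i) (fun _ _ => Nat.zero_le _)
        (Finset.mem_univ i)).trans h1)
    obtain ⟨a, ha⟩ : ∃ a : Mon N D, a = ⟨fun i => ⟨m i, h2 i⟩, h1⟩ := ⟨_, rfl⟩
    have h3 : m = a.ex := by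
      rw [ha]
      ext i
      rfl
    rw [h3, coeff_pol]
    exact h _

/-- the constant of the gradient -/
def cgr (N D : ℕ) (K : ℝ) : ℝ := ((D : ℝ) + 1) ^ N * (((D : ℝ) + 1) ^ (D + 1) * (K + 1) ^ D)

theorem cgr_nonneg {K : ℝ} (hK : 0 ≤ K) : 0 ≤ cgr N D K := by unfold cgr; positivity

/-- the gradient of the iterated derivatives near the point -/
theorem grad_der (L : List (Fin N)) (hL : L.length ≤ D) (c : Mon N D → ℝ) (hc : ∀ a, |c a| ≤ 1) {K : ℝ} (hK : 0 ≤ K)
    (y : Fin N → ℝ) (hy : ∀ i, |y i| ≤ K + 1) (i : Fin N) : |eval y (pderiv i (pol (dvec L c)))| ≤ cgr N D K := by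
  rw [pol_dvec]
  have h1 := der_coef (i :: L) (pol c) (pol_deg c) 1 zero_le_one (coeff_pol_le c zero_le_one hc)
  rw [← der_cons]
  refine (eval_le_of_coeff (der (i :: L) (pol c)) (der_deg _ _ (pol_deg c)) (((D : ℝ) + 1) ^ (D + 1)) (K + 1)
    (by positivity) (by linarith) (fun a => (h1 a).trans ?_) y hy)
  rw [mul_one, List.length_cons]
  calc (D : ℝ) ^ (L.length + 1) ≤ ((D : ℝ) + 1) ^ (L.length + 1) := pow_le_pow_left₀ (by positivity) (by linarith) _
    _ ≤ ((D : ℝ) + 1) ^ (D + 1) := pow_le_pow_right₀ (by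
        have : (0 : ℝ) ≤ D := Nat.cast_nonneg _
        linarith) (by omega)

/-- size on the cell of the point -/
theorem ph_der (L : List (Fin N)) (hL : L.length ≤ D) (c : Mon N D → ℝ) (hc : ∀ a, |c a| ≤ 1) {K r ρ : ℝ} (hK : 0 ≤ K)
    (hr : 0 < r) (hr1 : r ≤ 1) (hρ : r ≤ ρ) (x : Fin N → ℝ) (hx : ∀ i, |x i| ≤ K)
    (h0 : |eval x (der L (pol c))| ≤ ρ) :
    ph D (pol (dvec L c)) r x ≤ nn N D * ((1 + N * cgr N D K) * ρ) ^ 2 := by
  have hρ0 : 0 ≤ ρ := hr.le.trans hρ
  have h1 := ph_shf_le (dvec L c) 0 r 1 ρ (cgr N D K) hr le_rfl hρ0 (cgr_nonneg hK) x (by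
    rw [sub_zero, pol_dvec]
    exact h0) (by
    intro i y hy
    rw [one_mul]
    have h2 := grad_der L hL c hc hK y (fun j => by
      have h3 := hy j
      rw [one_mul] at h3
      have h4 : |y j| ≤ |y j - x j| + |x j| := by
        have := abs_add_le (y j - x j) (x j)
        rwa [sub_add_cancel] at this
      linarith [hx j]) i
    calc r * |eval y (pderiv i (pol (dvec L c)))| ≤ ρ * cgr N D K := mul_le_mul hρ h2 (abs_nonneg _) hρ0
      _ = _ := mul_comm _ _)
  have h2 : ph D (pol (shf (dvec L c) 0)) r x = ph D (pol (dvec L c)) r x := by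
    unfold ph
    refine Finset.sum_congr rfl fun j _ => ?_
    rw [eval_shf, sub_zero]
  rw [h2] at h1
  exact h1

/-- the determinant of a form which is large in one direction -/
theorem GQ_nfm {r w : ℝ} (hw : 0 ≤ w) (v : Mon N D → ℝ) (x : Fin N → ℝ) (i : Fin N) :
    w * (eval x (pderiv i (pol v))) ^ 2 ≤ GQ r (nfm w v) x := by
  classical
  have hs := nfm_symm w v
  have hn : ∀ y : Mon N D → ℝ, 0 ≤ y ⬝ᵥ (nfm w v *ᵥ y) := fun y =>
    (dot_self_nonneg y).trans (nfm_one_le hw v y)
  have h1 : Psd (Jq r (nfm w v) x) := ⟨Jq_symm r hs x, fun e => Jq_nonneg r hn x e⟩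
  have hpd : PdM (1 : Matrix (Fin N) (Fin N) ℝ) := ⟨one_symm, fun y hy => by
    rw [Matrix.one_mulVec]
    exact dot_self_pos hy⟩
  have h2 : w * (eval x (pderiv i (pol v))) ^ 2 ≤ qf (Jq r (nfm w v) x) (Pi.single i 1) := by
    unfold qf
    have e1 : (Pi.single i 1 : Fin N → ℝ) ⬝ᵥ (Jq r (nfm w v) x *ᵥ Pi.single i 1) = Jq r (nfm w v) x i i := by
      rw [Matrix.mulVec_single_one, single_dotProduct, one_mul]
      rfl
    rw [e1, Jq_apply]
    have h3 : dd i (nodp D x r 0) ⬝ᵥ (nfm w v *ᵥ dd i (nodp D x r 0)) ≤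
        ∑ j : Fin N → Fin (D + 1), dd i (nodp D x r j) ⬝ᵥ (nfm w v *ᵥ dd i (nodp D x r j)) :=
      Finset.single_le_sum (f := fun j => dd i (nodp D x r j) ⬝ᵥ (nfm w v *ᵥ dd i (nodp D x r j)))
        (fun j _ => hn _) (Finset.mem_univ 0)
    refine le_trans ?_ h3
    have h4 : nodp D x r (0 : Fin N → Fin (D + 1)) = x := by
      funext j
      unfold nodp nod
      simp
    rw [h4, eval_pderiv_pol]
    unfold nfm
    rw [Matrix.add_mulVec, dotProduct_add, Matrix.one_mulVec, qf_rk1]
    have := dot_self_nonneg (dd i x : Mon N D → ℝ)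
    linarith
  have h3 : qf (1 : Matrix (Fin N) (Fin N) ℝ) (Pi.single i 1) = 1 := by
    unfold qf
    rw [Matrix.one_mulVec, single_dotProduct, one_mul, Pi.single_eq_same]
  have h4 := det_gain' hpd h1 (w * (eval x (pderiv i (pol v))) ^ 2) (Pi.single i 1) (by
    intro h
    have := congrFun h i
    rw [Pi.single_eq_same] at this
    exact one_ne_zero this) (by rw [h3, mul_one]; exact h2)
  rw [Matrix.det_one, mul_one] at h4
  unfold GQ
  linarith

/-- comparison of the determinants -/
theorem GQ_le_smul {r c : ℝ} (hc : 1 ≤ c) {A B : Matrix (Mon N D) (Mon N D) ℝ} (hA : Psd A) (hB : Psd B)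
    (h : ∀ y, qf A y ≤ c * qf B y) (x : Fin N → ℝ) : GQ r A x ≤ c ^ N * GQ r B x := by
  apply GQ_le_of r r B A hB.1 hB.2 hA.1 hA.2 x x c hc
  intro e
  rw [Jq_qf, Jq_qf, Finset.mul_sum]
  exact Finset.sum_le_sum fun j _ => h _

end

end Pool.Agent.Helper5.HB
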