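import Pool.Agent.Helper5.HB.Chn
import Pool.Agent.Helper3.LF.Spd

/-! HULL BRIDGE, converse: the form made from a relation, at one point. -/

set_option autoImplicit false

namespace Pool.Agent.Helper5.HB

open MvPolynomial Matrix Pool.Agent.Helper3.LF Pool.Agent.Helper84.MT Pool.Agent.Helper89.LX
open Pool.Agent.Helper95.LF (PdM)

noncomputable section

variable {M D : ℕ}

/-- codes of iterated derivatives -/
def Cd (M D : ℕ) : Type := Σ n : Fin (D + 1), (Fin (n : ℕ) → Fin M)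

instance : Fintype (Cd M D) := by unfold Cd; infer_instance

instance : Nonempty (Cd M D) := ⟨⟨0, fun i => i.elim0⟩⟩

def Cd.L (c : Cd M D) : List (Fin M) := List.ofFn c.2

theorem Cd.len_le (c : Cd M D) : c.L.length ≤ D := by
  unfold Cd.L
  rw [List.length_ofFn]
  exact Nat.le_of_lt_succ c.1.2

theorem exists_Cd (L : List (Fin M)) (h : L.length ≤ D) : ∃ c : Cd M D, c.L = L :=
  ⟨⟨⟨L.length, Nat.lt_succ_of_le h⟩, L.get⟩, List.ofFn_get L⟩

/-- the thresholds -/
def tau (β n : ℝ) (D j : ℕ) : ℝ := 2 ^ (β * ((j : ℝ) - (D + 1)) * n)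

theorem tau_pos (β n : ℝ) (D j : ℕ) : 0 < tau β n D j := by unfold tau; positivity

theorem tau_mono {β n : ℝ} (hβ : 0 ≤ β) (hn : 0 ≤ n) : Monotone (tau β n D) := by
  intro i j h
  unfold tau
  apply Real.rpow_le_rpow_of_exponent_le (by norm_num)
  have h1 : (i : ℝ) ≤ j := by exact_mod_cast h
  apply mul_le_mul_of_nonneg_right _ hn
  apply mul_le_mul_of_nonneg_left _ hβ
  linarith

theorem tau_succ (β n : ℝ) (D j : ℕ) : tau β n D (j + 1) = tau β n D j * 2 ^ (β * n) := by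
  unfold tau
  rw [← Real.rpow_add (by norm_num)]
  congr 1
  push_cast
  ring

/-- the largest coefficient -/
theorem exists_amx (c : Mon M D → ℝ) : ∃ b : Mon M D, ∀ a, |c a| ≤ |c b| := by
  obtain ⟨b, -, hb⟩ := Finset.exists_max_image (Finset.univ : Finset (Mon M D)) (fun a => |c a|) Finset.univ_nonempty
  exact ⟨b, fun a => hb a (Finset.mem_univ a)⟩

def amx (c : Mon M D → ℝ) : Mon M D := (exists_amx c).choose

theorem le_amx (c : Mon M D → ℝ) (a : Mon M D) : |c a| ≤ |c (amx c)| := (exists_amx c).choose_spec a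

/-- the normalised vector -/
def nrm (c : Mon M D → ℝ) : Mon M D → ℝ := fun a => c a / |c (amx c)|

theorem nrm_le (c : Mon M D → ℝ) (a : Mon M D) : |nrm c a| ≤ 1 := by
  unfold nrm
  rw [abs_div, abs_abs]
  exact div_le_one_of_le₀ (le_amx c a) (abs_nonneg _)

theorem nrm_amx (c : Mon M D → ℝ) (h : 0 < |c (amx c)|) : |nrm c (amx c)| = 1 := by
  unfold nrm
  rw [abs_div, abs_abs, div_self h.ne']

theorem eval_nrm (c : Mon M D → ℝ) (x : Fin M → ℝ) :
    eval x (pol (nrm c)) = (∑ a, c a * vv x a) / |c (amx c)| := by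
  rw [eval_pol]
  unfold dotProduct nrm
  rw [Finset.sum_div]
  exact Finset.sum_congr rfl fun a _ => by ring

/-- a good code -/
def Gd (β n : ℝ) (q : MvPolynomial (Fin M) ℝ) (x : Fin M → ℝ) (c : Cd M D) : Prop :=
  ∃ i, |eval x (der c.L q)| ≤ tau β n D c.L.length ∧
    tau β n D (c.L.length + 1) < |eval x (pderiv i (der c.L q))|

open Classical in
def cdn (β n : ℝ) (D : ℕ) (q : MvPolynomial (Fin M) ℝ) (x : Fin M → ℝ) : Cd M D :=
  if h : ∃ c : Cd M D, Gd β n q x c then h.choose else Classical.arbitrary _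

theorem cdn_spec {β n : ℝ} {q : MvPolynomial (Fin M) ℝ} {x : Fin M → ℝ} (h : ∃ c : Cd M D, Gd β n q x c) :
    Gd β n q x (cdn β n D q x) := by
  unfold cdn
  rw [dif_pos h]
  exact h.choose_spec

/-- existence of a good code -/
theorem core1 {n β ε r K K1 : ℝ} (hn : 0 < n) (hβ : 0 < β) (hβε : β * (D + 1) = ε / 2) (hr1 : r ≤ 1)
    (hK : 1 ≤ K) (hK1 : 0 ≤ K1)
    (cr ch : Mon M D → ℝ) (hch : ∀ a, |ch a - cr a| ≤ 2 ^ (-n)) (x : Fin M → ℝ) (hx : ∀ i, |x i| ≤ K)
    (hv : |∑ a, cr a * vv x a| ≤ K1 * 2 ^ (-(r * n))) (a0 : Mon M D) (ha0 : (2 : ℝ) ^ (-((r - ε) * n)) < |cr a0|)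
    (n1 : 2 * (2 : ℝ) ^ (-n) ≤ 2 ^ (-((r - ε) * n)))
    (n2 : 2 * (K1 + Fintype.card (Mon M D) * K ^ D) ≤ (2 : ℝ) ^ (ε / 2 * n))
    (n3 : ccf M K D < (2 : ℝ) ^ (β * n)) : ∃ c : Cd M D, Gd β n (pol (nrm ch)) x c := by
  have hδ : (0 : ℝ) < 2 ^ (-n) := by positivity
  -- the largest coefficient is large
  have h1 : (2 : ℝ) ^ (-((r - ε) * n)) / 2 ≤ |ch (amx ch)| := by
    have h2 := le_amx ch a0
    have h3 := hch a0
    have h4 : |cr a0| ≤ |ch a0 - cr a0| + |ch a0| := by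
      have := abs_sub_abs_le_abs_sub (cr a0) (ch a0)
      rw [abs_sub_comm] at this
      linarith
    linarith
  have h0 : (0 : ℝ) < 2 ^ (-((r - ε) * n)) := by positivity
  have h2 : 0 < |ch (amx ch)| := by linarith
  -- the value
  have h3 : |∑ a, ch a * vv x a| ≤ (K1 + Fintype.card (Mon M D) * K ^ D) * 2 ^ (-(r * n)) := by
    have e1 : ∑ a, ch a * vv x a = ∑ a, cr a * vv x a + ∑ a, (ch a - cr a) * vv x a := by
      rw [← Finset.sum_add_distrib]
      exact Finset.sum_congr rfl fun a _ => by ring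
    have h4 : |∑ a, (ch a - cr a) * vv x a| ≤ Fintype.card (Mon M D) * (2 ^ (-n) * K ^ D) := by
      refine (Finset.abs_sum_le_sum_abs _ _).trans ((Finset.sum_le_card_nsmul _ _ (2 ^ (-n) * K ^ D) ?_).trans ?_)
      · intro a _
        rw [abs_mul]
        exact mul_le_mul (hch a) (vv_le hK x hx a) (abs_nonneg _) hδ.le
      · rw [nsmul_eq_mul, Finset.card_univ]
    have h5 : (2 : ℝ) ^ (-n) ≤ 2 ^ (-(r * n)) := by
      apply Real.rpow_le_rpow_of_exponent_le (by norm_num)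
      nlinarith
    rw [e1]
    refine (abs_add_le _ _).trans ?_
    have h6 : (Fintype.card (Mon M D) : ℝ) * (2 ^ (-n) * K ^ D) ≤ Fintype.card (Mon M D) * K ^ D * 2 ^ (-(r * n)) := by
      have h7 : (2 : ℝ) ^ (-n) * K ^ D ≤ 2 ^ (-(r * n)) * K ^ D := mul_le_mul_of_nonneg_right h5 (by positivity)
      calc (Fintype.card (Mon M D) : ℝ) * (2 ^ (-n) * K ^ D) ≤ Fintype.card (Mon M D) * (2 ^ (-(r * n)) * K ^ D) :=
            mul_le_mul_of_nonneg_left h7 (Nat.cast_nonneg _)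
        _ = _ := by ring
    rw [add_mul]
    linarith
  have h4 : |eval x (pol (nrm ch))| ≤ tau β n D 0 := by
    rw [eval_nrm, abs_div, abs_abs, div_le_iff₀ h2]
    refine h3.trans ?_
    have h5 : 0 ≤ (K1 + Fintype.card (Mon M D) * K ^ D) := by positivity
    have h6 : (2 : ℝ) ^ (-(r * n)) = 2 ^ (-((r - ε) * n)) * 2 ^ (-(ε / 2 * n)) * 2 ^ (-(ε / 2 * n)) := by
      rw [← Real.rpow_add (by norm_num), ← Real.rpow_add (by norm_num)]
      congr 1
      ring
    have h7 : tau β n D 0 = 2 ^ (-(ε / 2 * n)) := by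
      unfold tau
      congr 1
      rw [← hβε]
      push_cast
      ring
    have h8 : (2 : ℝ) ^ (ε / 2 * n) * 2 ^ (-(ε / 2 * n)) = 1 := by
      rw [← Real.rpow_add (by norm_num), add_neg_cancel, Real.rpow_zero]
    have h9 : (0 : ℝ) < 2 ^ (-(ε / 2 * n)) := by positivity
    have h10 : (K1 + Fintype.card (Mon M D) * K ^ D) * 2 ^ (-(ε / 2 * n)) ≤ 1 / 2 := by
      have h11 := mul_le_mul_of_nonneg_right n2 h9.le
      rw [h8] at h11
      linarith
    rw [h6, h7]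
    calc (K1 + Fintype.card (Mon M D) * K ^ D) * (2 ^ (-((r - ε) * n)) * 2 ^ (-(ε / 2 * n)) * 2 ^ (-(ε / 2 * n))) =
        ((K1 + Fintype.card (Mon M D) * K ^ D) * 2 ^ (-(ε / 2 * n))) * (2 ^ (-(ε / 2 * n)) * 2 ^ (-((r - ε) * n))) := by
          ring
      _ ≤ (1 / 2) * (2 ^ (-(ε / 2 * n)) * 2 ^ (-((r - ε) * n))) := mul_le_mul_of_nonneg_right h10 (by positivity)
      _ = 2 ^ (-(ε / 2 * n)) * (2 ^ (-((r - ε) * n)) / 2) := by ring
      _ ≤ _ := mul_le_mul_of_nonneg_left h1 h9.le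
  have h5 : ccf M K D * tau β n D D < |coeff (amx ch).ex (pol (nrm ch))| := by
    rw [coeff_pol, nrm_amx ch h2]
    have h6 : tau β n D D = 2 ^ (-(β * n)) := by
      unfold tau
      congr 1
      ring
    rw [h6, Real.rpow_neg (by norm_num), ← div_eq_mul_inv, div_lt_one (by positivity)]
    exact n3
  obtain ⟨L, i, hL, h6, h7⟩ := chn hK x hx (pol (nrm ch)) (pol_deg _) (tau β n D) (fun j => (tau_pos _ _ _ j).le)
    (tau_mono hβ.le hn.le) h4 _ h5
  obtain ⟨c, hc⟩ := exists_Cd (D := D) L (by omega)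
  exact ⟨c, i, by rw [hc]; exact h6, by rw [hc]; exact h7⟩

/-- the weight -/
def wgt (β n : ℝ) (D : ℕ) (c : Cd M D) : ℝ := (tau β n D c.L.length ^ 2)⁻¹

theorem wgt_pos (β n : ℝ) (c : Cd M D) : 0 < wgt β n D c := by
  unfold wgt
  have := tau_pos β n D c.L.length
  positivity

/-- the size of the form of a good code -/
theorem core2 {n β ε K : ℝ} (hn : 0 < n) (hβ : 0 < β) (hβε : β * (D + 1) = ε / 2) (hε : ε ≤ 1) (hK : 0 ≤ K)
    (ch : Mon M D → ℝ) (x : Fin M → ℝ) (hx : ∀ i, |x i| ≤ K) (c : Cd M D) (h : Gd β n (pol (nrm ch)) x c) :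
    wgt β n D c * ph D (pol (dvec c.L (nrm ch))) (2 ^ (-n)) x ≤ nn M D * (1 + M * cgr M D K) ^ 2 ∧
    ∀ r, 2 ^ (2 * β * n) ≤ GQ r (nfm (wgt β n D c) (dvec c.L (nrm ch))) x := by
  obtain ⟨i, h1, h2⟩ := h
  have hτ := tau_pos β n D c.L.length
  constructor
  · have h3 : (2 : ℝ) ^ (-n) ≤ tau β n D c.L.length := by
      unfold tau
      apply Real.rpow_le_rpow_of_exponent_le (by norm_num)
      have h4 : (0 : ℝ) ≤ (c.L.length : ℕ) := Nat.cast_nonneg _
      have h5 : -(1 : ℝ) ≤ β * ((c.L.length : ℝ) - (D + 1)) := by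
        have : β * ((c.L.length : ℝ) - (D + 1)) = β * c.L.length - β * (D + 1) := by ring
        rw [this, hβε]
        have := mul_nonneg hβ.le h4
        linarith
      have h6 := mul_le_mul_of_nonneg_right h5 hn.le
      linarith
    have h4 := ph_der (K := K) (r := 2 ^ (-n)) (ρ := tau β n D c.L.length) c.L c.len_le (nrm ch) (nrm_le ch) hK
      (by positivity) (Real.rpow_le_one_of_one_le_of_nonpos (by norm_num) (by linarith)) h3 x hx h1
    refine (mul_le_mul_of_nonneg_left h4 (wgt_pos β n c).le).trans (le_of_eq ?_)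
    unfold wgt
    rw [mul_pow]
    field_simp
  · intro r
    refine le_trans ?_ (GQ_nfm (wgt_pos β n c).le (dvec c.L (nrm ch)) x i)
    rw [pol_dvec, ← sq_abs]
    have h3 : tau β n D (c.L.length + 1) ^ 2 ≤ |eval x (pderiv i (der c.L (pol (nrm ch))))| ^ 2 :=
      pow_le_pow_left₀ (tau_pos _ _ _ _).le h2.le 2
    refine le_trans (le_of_eq ?_) (mul_le_mul_of_nonneg_left h3 (wgt_pos β n c).le)
    rw [tau_succ, mul_pow]
    unfold wgt
    rw [← mul_assoc, inv_mul_cancel₀ (by positivity), one_mul, ← Real.rpow_natCast, ← Real.rpow_mul (by norm_num)]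
    congr 1
    push_cast
    ring

end

end Pool.Agent.Helper5.HB
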