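import Pool.Agent.Helper5.HB.Rel
import Pool.Agent.Helper84.MT.Def
import Pool.Agent.Helper31.EC.Uns

/-! HULL BRIDGE: if there is no polynomial relation with coefficients known to the base, on all events of positive
probability, then the hull of a form over the base has full volume. -/

set_option autoImplicit false

namespace Pool.Agent.Helper5.HB

open Finset Filter Topology Matrix Pool.Agent.Helper69.RK Pool.Agent.Helper31.EC Pool.Agent.Helper31.EC.Sp
open Pool.Agent.Helper95.LF Pool.Agent.Helper3.LF Pool.Agent.Helper84.MT Pool.Agent.Helper5.DO QS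
open Pool.Agent.Helper89.LX Pool.Agent.Helper40.EL

noncomputable section

variable {U : Sp} {M D : ℕ}

open Classical in
/-- expectations and events -/
theorem exp_le {F : FSp} (f : F.Ω → ℝ) (E : F.Ω → Prop) {a C : ℝ} (ha : 0 ≤ a)
    (h1 : ∀ ω, F.μ ω ≠ 0 → f ω ≤ C) (h2 : ∀ ω, F.μ ω ≠ 0 → ¬ E ω → f ω ≤ a) :
    ∑ ω, F.μ ω * f ω ≤ a + C * F.pb E := by
  have h3 : ∀ ω, F.μ ω * f ω ≤ a * F.μ ω + C * res F.μ E ω := by
    intro ω
    have hn := F.nn ω
    by_cases hE : E ω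
    · rw [res_pos _ _ _ hE]
      by_cases h0 : F.μ ω = 0
      · rw [h0]
        simp
      · have := mul_le_mul_of_nonneg_left (h1 ω h0) hn
        have h4 : 0 ≤ a * F.μ ω := mul_nonneg ha hn
        linarith
    · rw [res_neg _ _ _ hE, mul_zero, add_zero]
      by_cases h0 : F.μ ω = 0
      · rw [h0]
        simp
      · have := mul_le_mul_of_nonneg_left (h2 ω h0 hE) hn
        linarith
  refine (Finset.sum_le_sum fun ω _ => h3 ω).trans (le_of_eq ?_)
  rw [Finset.sum_add_distrib, ← Finset.mul_sum, ← Finset.mul_sum]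
  have h5 : ∑ ω, F.μ ω = 1 := F.ms
  have h6 : ∑ ω, res F.μ E ω = F.pb E := rfl
  rw [h5, h6, mul_one]

/-- the gradient of the unit form is tame -/
theorem gam_one_Sub (Q : U.VV M) : ∃ G : ℕ → ℝ, U.Sub G ∧ ∀ᶠ k in UF, ∀ ω, (U.F k).μ ω ≠ 0 →
    gam (U.dl 1 k) (1 : Matrix (Mon M D) (Mon M D) ℝ) (Q.v k ω) ≤ G k := by
  obtain ⟨K, hK, hb⟩ := Q.bd
  have hpd : PdM (1 : Matrix (Mon M D) (Mon M D) ℝ) := by
    refine ⟨Matrix.transpose_one, fun x hx => ?_⟩
    rw [Matrix.one_mulVec]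
    exact self_pos hx
  have hg : 0 ≤ gam 1 (1 : Matrix (Mon M D) (Mon M D) ℝ) (0 : Fin M → ℝ) := gam_nonneg 1 hpd.nonneg 0
  refine ⟨fun k => nn M D * ((Cu D * Cm M D * (K k + 1) ^ D) * (Cu D * Cm M D * (K k + 1) ^ D)) *
    gam 1 (1 : Matrix (Mon M D) (Mon M D) ℝ) (0 : Fin M → ℝ), ?_, ?_⟩
  · have h1 := nn_one M D
    have h2 := Cm_one M D
    have h3 := Cu_one D
    have h4 : U.Sub (fun k => Cu D * Cm M D * (K k + 1) ^ D) :=
      (U.Sub_const (by positivity)).mul (Sub_pow' (hK.add (U.Sub_const zero_le_one)) _)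
    exact ((U.Sub_const (by linarith)).mul (h4.mul h4)).mul (U.Sub_const hg)
  · filter_upwards [hb, hK.1] with k h1 h2 ω hω
    have h3 := gam_comp (1 : Matrix (Mon M D) (Mon M D) ℝ) hpd 1 (U.dl 1 k) (K k + 1) one_pos (U.dl_pos 1 k).le
      (by linarith) 0 (Q.v k ω) (fun i => by
        have h4 := h1 ω hω i
        have h5 := dl_one_le U k
        simp only [Pi.zero_apply, sub_zero, mul_one]
        linarith)
    rw [pow_two] at h3
    exact h3

/-- NO RELATION: FULL VOLUME, form over the base -/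
theorem hb_base (Q : U.VV M) (g : ∀ k, (U.F k).Ω → Matrix (Mon M D) (Mon M D) ℝ)
    (hg : ∀ k ω ω', (U.F k).μ ω ≠ 0 → (U.F k).μ ω' ≠ 0 → (U.F k).Z ω ω' → g k ω = g k ω') {C : ℝ} (hC : 0 ≤ C)
    (hcp : ∀ᶠ k in UF, ∀ ω, (U.F k).μ ω ≠ 0 → Cpd (2 ^ (C * (U.F k).n)) (g k ω))
    (hphi : ∀ η : ℝ, 0 < η → Typ (S := U) (fun k ω => phi (U.dl 1 k) (g k ω) (Q.v k ω) ≤ 2 ^ (η * (U.F k).n)))
    (hNR : ∀ (E : ∀ k, (U.F k).Ω → Prop) (hE : 0 < ul (U.pr E)) (r : ℝ), 0 < r → r ≤ 1 →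
      NR D (cq (Q.rest E)) (⊥ : (U.rest E).L) r) :
    ul (fun k => ∑ ω, (U.F k).μ ω * (Real.logb 2 (GQ (U.dl 1 k) (g k ω) (Q.v k ω)) / (2 * (U.F k).n))) ≤ 0 := by
  classical
  by_contra hcon
  obtain ⟨v, hv⟩ : ∃ v, v = ul (fun k => ∑ ω, (U.F k).μ ω *
    (Real.logb 2 (GQ (U.dl 1 k) (g k ω) (Q.v k ω)) / (2 * (U.F k).n))) := ⟨_, rfl⟩
  rw [← hv] at hcon
  push Not at hcon
  obtain ⟨G, hG, hGb⟩ := gam_one_Sub (D := D) Q
  have hpd : ∀ᶠ k in UF, ∀ ω, (U.F k).μ ω ≠ 0 → PdM (g k ω) := by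
    filter_upwards [hcp] with k hk ω hω
    exact ⟨(hk ω hω).1, fun x hx => (hk ω hω).pd hx⟩
  -- the two bounds of the integrand
  obtain ⟨c0, hc0⟩ : ∃ c0 : ℝ, c0 = Fintype.card (Mon M D) := ⟨_, rfl⟩
  have hc00 : 0 ≤ c0 := by rw [hc0]; exact Nat.cast_nonneg _
  have hGs : U.Sub (fun k => c0 * G k) := (U.Sub_const hc00).mul hG
  have key : ∀ (k : ℕ) (ω : (U.F k).Ω) (b T : ℝ), PdM (g k ω) → 0 ≤ b → 0 ≤ T → 0 ≤ G k →
      GQ (U.dl 1 k) (g k ω) (Q.v k ω) ≤ (1 + 2 ^ (b * (U.F k).n) * T) ^ M →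
      Real.logb 2 (GQ (U.dl 1 k) (g k ω) (Q.v k ω)) / (2 * (U.F k).n) ≤
        M * b / 2 + M / 2 * (Real.logb 2 (T + 2) / (U.F k).n) := by
    intro k ω b T h1 hb hT hGk h2
    have hn := (U.F k).pos
    have h3 : 1 ≤ GQ (U.dl 1 k) (g k ω) (Q.v k ω) := one_le_GQ _ h1.1 h1.nonneg _
    have h4 : 1 ≤ (2 : ℝ) ^ (b * (U.F k).n) := Real.one_le_rpow (by norm_num) (mul_nonneg hb hn.le)
    have h5 : 1 + 2 ^ (b * (U.F k).n) * T ≤ 2 ^ (b * (U.F k).n) * (T + 2) := by nlinarith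
    have h6 : Real.logb 2 (GQ (U.dl 1 k) (g k ω) (Q.v k ω)) ≤ M * (b * (U.F k).n + Real.logb 2 (T + 2)) := by
      calc Real.logb 2 (GQ (U.dl 1 k) (g k ω) (Q.v k ω)) ≤ Real.logb 2 ((2 ^ (b * (U.F k).n) * (T + 2)) ^ M) := by
            apply Real.logb_le_logb_of_le (by norm_num) (by linarith)
            exact h2.trans (pow_le_pow_left₀ (by positivity) h5 M)
        _ = M * (b * (U.F k).n + Real.logb 2 (T + 2)) := by
            rw [Real.logb_pow, Real.logb_mul (by positivity) (by positivity), Real.logb_rpow (by norm_num) (by norm_num)]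
    rw [div_le_iff₀ (by positivity)]
    refine h6.trans (le_of_eq ?_)
    field_simp
  -- the exponent
  have hM : 0 < (M : ℝ) := by
    rcases Nat.eq_zero_or_pos M with h0 | h0
    · exfalso
      subst h0
      have h1 : (fun k => ∑ ω, (U.F k).μ ω * (Real.logb 2 (GQ (U.dl 1 k) (g k ω) (Q.v k ω)) / (2 * (U.F k).n))) =
          fun _ => 0 := by
        funext k
        apply Finset.sum_eq_zero
        intro ω _
        have h2 : GQ (U.dl 1 k) (g k ω) (Q.v k ω) = 1 := Matrix.det_isEmpty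
        rw [h2, Real.logb_one, zero_div, mul_zero]
      rw [h1, ul_const] at hv
      linarith
    · exact_mod_cast h0
  obtain ⟨b, hb⟩ : ∃ b, b = v / M := ⟨_, rfl⟩
  have hb0 : 0 < b := by rw [hb]; exact div_pos hcon hM
  have hbv : M * b / 2 < v := by
    have : M * b = v := by rw [hb]; field_simp
    rw [this]
    linarith
  obtain ⟨E, hE⟩ : ∃ E : ∀ k, (U.F k).Ω → Prop, E = fun k ω => 2 ^ (b * (U.F k).n) ≤ row (g k ω) ⬝ᵥ row (g k ω) :=
    ⟨_, rfl⟩
  have hEpos : 0 < ul (U.pr E) := by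
    by_contra hno
    have hz : ul (U.pr E) = 0 := le_antisymm (not_lt.mp hno)
      (const_le_ul (UB_pr E) (Eventually.of_forall fun k => pr_nonneg E k))
    have ht : Tendsto (U.pr E) UF (𝓝 0) := by
      have := ul_tendsto (UB_pr E)
      rwa [hz] at this
    -- upper bound
    have hup : ∀ᶠ k in UF, ∑ ω, (U.F k).μ ω * (Real.logb 2 (GQ (U.dl 1 k) (g k ω) (Q.v k ω)) / (2 * (U.F k).n)) ≤
        M * b / 2 + M / 2 * (Real.logb 2 (c0 * G k + 2) / (U.F k).n) +
          (M * C / 2 + M / 2 * (Real.logb 2 (G k + 2) / (U.F k).n)) * U.pr E k := by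
      filter_upwards [hpd, hcp, hGb, hG.1] with k h1 h2 h3 h4
      have hn := (U.F k).pos
      apply exp_le
      · have h5 : 0 ≤ Real.logb 2 (c0 * G k + 2) / (U.F k).n :=
          div_nonneg (Real.logb_nonneg (by norm_num) (by nlinarith [mul_nonneg hc00 h4])) hn.le
        positivity
      · intro ω hω
        apply key k ω C (G k) (h1 ω hω) hC h4 h4
        refine (GQ_le_gam _ _ (h1 ω hω) _).trans ?_
        have h5 := gam_nonneg (U.dl 1 k) (h1 ω hω).nonneg (Q.v k ω)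
        apply pow_le_pow_left₀ (by linarith)
        have h6 : gam (U.dl 1 k) (g k ω) (Q.v k ω) ≤
            gam (U.dl 1 k) ((2 : ℝ) ^ (C * (U.F k).n) • (1 : Matrix (Mon M D) (Mon M D) ℝ)) (Q.v k ω) := by
          apply gam_mono
          intro x
          rw [Matrix.smul_mulVec, Matrix.one_mulVec, dotProduct_smul, smul_eq_mul]
          exact (h2 ω hω).2.2 x
        rw [gam_smul] at h6
        have h7 := mul_le_mul_of_nonneg_left (h3 ω hω) (by positivity : (0:ℝ) ≤ 2 ^ (C * (U.F k).n))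
        linarith
      · intro ω hω hEω
        rw [hE] at hEω
        have h8 : row (g k ω) ⬝ᵥ row (g k ω) < 2 ^ (b * (U.F k).n) := not_le.mp hEω
        have h9 : trc (g k ω) ≤ c0 * 2 ^ (b * (U.F k).n) := by
          refine (trc_le _).trans ?_
          rw [hc0]
          exact mul_le_mul_of_nonneg_left h8.le (Nat.cast_nonneg _)
        apply key k ω b (c0 * G k) (h1 ω hω) hb0.le (mul_nonneg hc00 h4) h4
        refine (GQ_le_trc (h1 ω hω) _ _).trans ?_
        have h5 : 0 ≤ gam (U.dl 1 k) (1 : Matrix (Mon M D) (Mon M D) ℝ) (Q.v k ω) := gam_nonneg _ (fun x => by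
          rw [Matrix.one_mulVec]
          exact self_nonneg' x) _
        have h10 := trc_nonneg (g k ω)
        apply pow_le_pow_left₀ (by positivity)
        have h11 : trc (g k ω) * gam (U.dl 1 k) (1 : Matrix (Mon M D) (Mon M D) ℝ) (Q.v k ω) ≤
            (c0 * 2 ^ (b * (U.F k).n)) * G k := mul_le_mul h9 (h3 ω hω) h5 (by positivity)
        linarith
    have hlim : Tendsto (fun k => M * b / 2 + M / 2 * (Real.logb 2 (c0 * G k + 2) / (U.F k).n) +
          (M * C / 2 + M / 2 * (Real.logb 2 (G k + 2) / (U.F k).n)) * U.pr E k) UF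
        (𝓝 (M * b / 2 + M / 2 * 0 + (M * C / 2 + M / 2 * 0) * 0)) :=
      (tendsto_const_nhds.add (hGs.2.const_mul _)).add ((tendsto_const_nhds.add (hG.2.const_mul _)).mul ht)
    have h0 : ∀ᶠ k in UF, 0 ≤ ∑ ω, (U.F k).μ ω *
        (Real.logb 2 (GQ (U.dl 1 k) (g k ω) (Q.v k ω)) / (2 * (U.F k).n)) := by
      filter_upwards [hpd] with k h1
      apply Finset.sum_nonneg
      intro ω _
      by_cases hω : (U.F k).μ ω = 0
      · rw [hω, zero_mul]
      · have h2 := one_le_GQ (U.dl 1 k) (h1 ω hω).1 (h1 ω hω).nonneg (Q.v k ω)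
        exact mul_nonneg ((U.F k).nn ω) (div_nonneg (Real.logb_nonneg (by norm_num) h2)
          (by have := (U.F k).pos; positivity))
    have hub := UB_of_tendsto hlim
    have hub2 := UB.sandwich (UB_const 0) hub h0 hup
    have h1 := ul_mono hub2 hub hup
    rw [ul_eq hlim, ← hv] at h1
    simp only [mul_zero, add_zero] at h1
    linarith
  -- the relation
  have hpp : ∀ᶠ k in UF, 0 < (U.F k).pb (E k) := by
    have := eventually_gt_of_lt_ul (UB_pr E) hEpos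
    filter_upwards [this] with k hk using hk
  obtain ⟨r, hr0, hr1, hr4⟩ : ∃ r : ℝ, 0 < r ∧ r ≤ 1 ∧ r ≤ b / 4 :=
    ⟨min (b / 4) 1, lt_min (by linarith) one_pos, min_le_right _ _, min_le_left _ _⟩
  refine row_rel (W := U.rest E) g (Q.rest E) ?_ ?_ (b := b) ?_ ?_ hr4 hr0 hr1 (hNR E hEpos r hr0 hr1)
  · intro k ω ω' h1 h2 h3
    exact hg k ω ω' ((U.F k).rest_supp (E k) ω h1).1 ((U.F k).rest_supp (E k) ω' h2).1 h3
  · filter_upwards [hpd] with k h1 ω hω
    exact h1 ω ((U.F k).rest_supp (E k) ω hω).1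
  · filter_upwards [hpp] with k h1 ω hω
    have h2 := ((U.F k).rest_supp (E k) ω hω).2 h1.ne'
    rw [hE] at h2
    exact h2
  · exact Sp.Typ.rest E hEpos (hphi (b / 2) (by linarith))

end

end Pool.Agent.Helper5.HB
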