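import Pool.Agent.Helper5.HB.Row
import Pool.Agent.Helper5.DO.Pro
import Pool.Agent.Helper38.NS.Deg

/-! HULL BRIDGE: a form over the base whose largest row is exponentially large is a polynomial relation with coefficients
known to the base. -/

set_option autoImplicit false

namespace Pool.Agent.Helper5.HB

open Finset Filter Topology Matrix Pool.Agent.Helper69.RK Pool.Agent.Helper31.EC Pool.Agent.Helper31.EC.Sp
open Pool.Agent.Helper95.LF Pool.Agent.Helper3.LF Pool.Agent.Helper84.MT Pool.Agent.Helper5.DO QS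

noncomputable section

variable {W : Sp} {M D : ℕ}

/-- the coordinates of a vector to full precision -/
def cq (Q : W.VV M) (i : Fin M) : QS W := mk (TR.cor Q i)

/-- bounded functions of the state as tame functions -/
def bdT (f : ∀ k, (W.F k).Ω → ℝ) (hf : ∀ k ω, |f k ω| ≤ 1) : TR W :=
  ⟨f, fun _ => 1, W.Sub_const zero_le_one, Eventually.of_forall fun k ω _ => hf k ω⟩

theorem ev_bdT (f : ∀ k, (W.F k).Ω → ℝ) (hf : ∀ k ω, |f k ω| ≤ 1) (k : ℕ) (ω : (W.F k).Ω) :
    TR.ev (bdT f hf) k ω = f k ω := rfl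

/-- functions of the base have no digits -/
theorem dg_base (f : TR W) (h : ∀ k ω ω', (W.F k).μ ω ≠ 0 → (W.F k).μ ω' ≠ 0 → (W.F k).Z ω ω' →
    TR.ev f k ω = TR.ev f k ω') (r : ℝ) : TR.dg f r ≤ ⊥ := by
  rw [← cl_bot]
  refine TR.dg_le_cl f r Inf.bot (fun _ _ => True) Typ_true (fun _ => 0) (W.Sub_const le_rfl) ?_
  refine Eventually.of_forall fun k ω ω' a b _ _ hz _ => ?_
  rw [h k ω ω' a b hz, sub_self, abs_zero]
  have := (W.dl_pos r k).le
  positivity

variable (g : ∀ k, (W.F k).Ω → Matrix (Mon M D) (Mon M D) ℝ)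

/-- coefficients of the normalised row -/
def cft (a : Mon M D) : TR W := bdT (fun k ω => urow (g k ω) a) (fun _ _ => urow_abs _ _)

/-- the polynomial of the normalised row -/
def prow : MvPolynomial (Fin M) (QS W) := ∑ a : Mon M D, MvPolynomial.monomial a.ex (mk (cft g a))

theorem prow_deg : (prow g).totalDegree ≤ D := by
  unfold prow
  refine MvPolynomial.totalDegree_finsetSum_le fun a _ => ?_
  exact (MvPolynomial.totalDegree_monomial_le _ _).trans a.ex_sum

theorem prow_PK (hg : ∀ k ω ω', (W.F k).μ ω ≠ 0 → (W.F k).μ ω' ≠ 0 → (W.F k).Z ω ω' → g k ω = g k ω') :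
    prow g ∈ PK ⊥ := by
  refine (PK ⊥).sum_mem fun a _ => monomial_mem _ ?_
  rw [dg_mk _ le_rfl]
  apply dg_base
  intro k ω ω' h1 h2 h3
  unfold cft
  rw [ev_bdT, ev_bdT, hg k ω ω' h1 h2 h3]

theorem ex_inj {a b : Mon M D} (h : a.ex = b.ex) : a = b := by
  apply Subtype.ext
  funext i
  have h1 := DFunLike.congr_fun h i
  rw [Mon.ex_apply, Mon.ex_apply] at h1
  exact Fin.ext h1

theorem prow_coeff (a : Mon M D) : (prow g).coeff a.ex = mk (cft g a) := by
  classical
  unfold prow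
  rw [MvPolynomial.coeff_sum, Finset.sum_eq_single a]
  · rw [MvPolynomial.coeff_monomial, if_pos rfl]
  · intro b _ hb
    rw [MvPolynomial.coeff_monomial, if_neg]
    exact fun h => hb (ex_inj h)
  · intro h
    exact absurd (Finset.mem_univ a) h

/-- the value -/
def pvl (Q : W.VV M) : TR W := ∑ a : Mon M D, cft g a * ∏ i, TR.cor Q i ^ (a.1 i : ℕ)

theorem ev_pvl (Q : W.VV M) (k : ℕ) (ω : (W.F k).Ω) :
    TR.ev (pvl g Q) k ω = ∑ a, urow (g k ω) a * vv (Q.v k ω) a := by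
  rw [← TR.evh_apply]
  unfold pvl
  rw [map_sum]
  refine Finset.sum_congr rfl fun a _ => ?_
  rw [map_mul, map_prod, vv_apply]
  congr 1

theorem prow_eval (Q : W.VV M) : MvPolynomial.eval (cq Q) (prow g) = mk (pvl g Q) := by
  unfold prow pvl
  rw [map_sum, map_sum]
  refine Finset.sum_congr rfl fun a _ => ?_
  rw [MvPolynomial.eval_monomial, map_mul, map_prod, Finsupp.prod_fintype _ _ (fun _ => pow_zero _)]
  congr 1

theorem sub_cst {r : ℝ} (f : TR W) {C : ℝ} (hC : 0 ≤ C) (h : Typ (fun k ω => |TR.ev f k ω| ≤ C * W.dl r k)) :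
    TR.Ag r f 0 := by
  refine ⟨_, fun _ => C, h, W.Sub_const hC, ?_⟩
  refine Eventually.of_forall fun k ω _ hω => ?_
  rw [TR.ev_zero, sub_zero]
  exact hω

/-- a large row gives a relation -/
theorem row_rel (Q : W.VV M)
    (hg : ∀ k ω ω', (W.F k).μ ω ≠ 0 → (W.F k).μ ω' ≠ 0 → (W.F k).Z ω ω' → g k ω = g k ω')
    (hpd : ∀ᶠ k in UF, ∀ ω, (W.F k).μ ω ≠ 0 → PdM (g k ω)) {b : ℝ}
    (hrow : ∀ᶠ k in UF, ∀ ω, (W.F k).μ ω ≠ 0 → 2 ^ (b * (W.F k).n) ≤ row (g k ω) ⬝ᵥ row (g k ω))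
    (hphi : Typ (S := W) (fun k ω => phi (W.dl 1 k) (g k ω) (Q.v k ω) ≤ 2 ^ (b / 2 * (W.F k).n)))
    {r : ℝ} (hr : r ≤ b / 4) (hr0 : 0 < r) (hr1 : r ≤ 1) : ¬ NR D (cq Q) (⊥ : W.L) r := by
  intro hnr
  have h1 : MvPolynomial.eval (cq Q) (prow g) ∈ Id W r := by
    rw [prow_eval, mk_mem_Id hr1]
    apply sub_cst _ (C := Cm M D) (by have := Cm_one M D; linarith)
    refine hphi.mono ?_
    filter_upwards [hpd, hrow] with k h1 h2 ω hω h3
    rw [ev_pvl]
    have h4 := urow_val (h1 ω hω) (W.dl 1 k) (W.dl_pos 1 k) (Q.v k ω) (b := 2 ^ (b * (W.F k).n))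
      (by positivity) (h2 ω hω) h3
    have hn := (W.F k).pos
    have h5 : (Cm M D * W.dl r k) ^ 2 = Cm M D ^ 2 * W.dl r k ^ 2 := mul_pow _ _ _
    apply abs_le_of_sq_le_sq _ (by have := Cm_one M D; have := (W.dl_pos r k).le; positivity)
    rw [h5]
    refine h4.trans ?_
    rw [mul_div_assoc]
    apply mul_le_mul_of_nonneg_left _ (sq_nonneg _)
    have h6 : (2 : ℝ) ^ (b / 2 * (W.F k).n) / 2 ^ (b * (W.F k).n) = 2 ^ (-(b / 2) * (W.F k).n) := by
      rw [← Real.rpow_sub (by norm_num)]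
      congr 1
      ring
    have h7 : W.dl r k ^ 2 = 2 ^ (-(2 * r) * (W.F k).n) := by
      have h8 : W.dl r k = 2 ^ (-(r * (W.F k).n)) := rfl
      rw [h8, ← Real.rpow_natCast, ← Real.rpow_mul (by norm_num)]
      congr 1
      push_cast
      ring
    rw [h6, h7]
    apply Real.rpow_le_rpow_of_exponent_le (by norm_num)
    apply mul_le_mul_of_nonneg_right _ hn.le
    linarith
  have h2 := hnr _ (prow_deg g) (prow_PK g hg) h1
  have h3 : (∑ a : Mon M D, mk (cft g a) * mk (cft g a) : QS W) = 1 := by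
    have e1 : (∑ a : Mon M D, mk (cft g a) * mk (cft g a) : QS W) = mk (∑ a : Mon M D, cft g a * cft g a) := by
      rw [map_sum]
      exact Finset.sum_congr rfl fun a _ => (map_mul _ _ _).symm
    rw [e1, ← map_one (mk (S := W)), mk_eq]
    apply TR.Te.ag
    refine ⟨fun _ _ => True, Typ_true, ?_⟩
    filter_upwards [hrow] with k h4 ω hω _
    have h5 := urow_sq (lt_of_lt_of_le (by positivity) (h4 ω hω))
    rw [TR.ev_one, ← h5, ← TR.evh_apply, map_sum]
    refine Finset.sum_congr rfl fun a _ => ?_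
    rw [map_mul, pow_two]
    rfl
  apply Pool.Agent.Helper38.NS.one_notMem_Id (S := W) hr0
  rw [← h3]
  refine (Id W r).sum_mem fun a _ => ?_
  rw [← prow_coeff]
  exact (Id W r).mul_mem_left _ (h2 _)

end

end Pool.Agent.Helper5.HB
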