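import Pool.Agent.Helper84.MT.Vol

/-! HULL BRIDGE: the largest row of a factor of a form, as a function of the form. -/

set_option autoImplicit false

namespace Pool.Agent.Helper5.HB

open MvPolynomial Matrix Pool.Agent.Helper95.LF Pool.Agent.Helper3.LF Pool.Agent.Helper84.MT

noncomputable section

variable {M D : ℕ}

open Classical in
/-- a factor of a positive definite form -/
def fac (A : Matrix (Mon M D) (Mon M D) ℝ) : Matrix (Mon M D) (Mon M D) ℝ :=
  if h : PdM A then (exists_factor A h).choose else 1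

theorem fac_spec {A : Matrix (Mon M D) (Mon M D) ℝ} (hA : PdM A) : A = (fac A).transpose * fac A := by
  unfold fac
  rw [dif_pos hA]
  exact (exists_factor A hA).choose_spec.1

/-- the sum of the squares of the rows -/
def trc (A : Matrix (Mon M D) (Mon M D) ℝ) : ℝ := ∑ k, fac A k ⬝ᵥ fac A k

theorem trc_nonneg (A : Matrix (Mon M D) (Mon M D) ℝ) : 0 ≤ trc A :=
  Finset.sum_nonneg fun k _ => self_nonneg' _

theorem le_trc {A : Matrix (Mon M D) (Mon M D) ℝ} (hA : PdM A) (x : Mon M D → ℝ) :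
    x ⬝ᵥ (A *ᵥ x) ≤ trc A * (x ⬝ᵥ x) := by
  conv_lhs => rw [fac_spec hA]
  rw [qf_rows]
  unfold trc
  rw [Finset.sum_mul]
  exact Finset.sum_le_sum fun k _ => cs _ _

/-- index of the largest row -/
def rix (A : Matrix (Mon M D) (Mon M D) ℝ) : Mon M D :=
  (Finite.exists_max fun k => fac A k ⬝ᵥ fac A k).choose

/-- the largest row -/
def row (A : Matrix (Mon M D) (Mon M D) ℝ) : Mon M D → ℝ := fac A (rix A)

theorem row_max (A : Matrix (Mon M D) (Mon M D) ℝ) (k : Mon M D) : fac A k ⬝ᵥ fac A k ≤ row A ⬝ᵥ row A :=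
  (Finite.exists_max fun k => fac A k ⬝ᵥ fac A k).choose_spec k

theorem trc_le (A : Matrix (Mon M D) (Mon M D) ℝ) : trc A ≤ Fintype.card (Mon M D) * (row A ⬝ᵥ row A) := by
  refine (Finset.sum_le_card_nsmul _ _ _ fun k _ => row_max A k).trans (le_of_eq ?_)
  rw [nsmul_eq_mul, Finset.card_univ]

/-- the polynomial of the largest row is small where the form is small -/
theorem row_val {A : Matrix (Mon M D) (Mon M D) ℝ} (hA : PdM A) (r : ℝ) (hr : 0 < r) (p : Fin M → ℝ) :
    (eval p (pol (row A))) ^ 2 ≤ Cm M D ^ 2 * phi r A p := by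
  have h1 := val_le (pol (row A)) (pol_deg _) r 1 hr le_rfl p p (fun i => by
    rw [sub_self, abs_zero, one_mul]
    exact hr.le)
  rw [one_pow, mul_one] at h1
  refine h1.trans ?_
  apply mul_le_mul_of_nonneg_left _ (sq_nonneg _)
  conv_rhs => rw [fac_spec hA]
  rw [phi_rows]
  exact Finset.single_le_sum (f := fun k => ph D (pol (fac A k)) r p) (fun _ _ => ph_nonneg _ _ _)
    (Finset.mem_univ (rix A))

/-- the normalised row -/
def urow (A : Matrix (Mon M D) (Mon M D) ℝ) (a : Mon M D) : ℝ := row A a / Real.sqrt (row A ⬝ᵥ row A)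

theorem urow_sq {A : Matrix (Mon M D) (Mon M D) ℝ} (h : 0 < row A ⬝ᵥ row A) : ∑ a, urow A a ^ 2 = 1 := by
  unfold urow
  have h1 : ∀ a : Mon M D, (row A a / Real.sqrt (row A ⬝ᵥ row A)) ^ 2 = row A a ^ 2 / (row A ⬝ᵥ row A) := by
    intro a
    rw [div_pow, Real.sq_sqrt h.le]
  rw [Finset.sum_congr rfl fun a _ => h1 a, ← Finset.sum_div]
  have h2 : ∑ a : Mon M D, row A a ^ 2 = row A ⬝ᵥ row A := by
    unfold dotProduct
    exact Finset.sum_congr rfl fun a _ => pow_two _
  rw [h2, div_self h.ne']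

theorem urow_abs (A : Matrix (Mon M D) (Mon M D) ℝ) (a : Mon M D) : |urow A a| ≤ 1 := by
  unfold urow
  rw [abs_div, abs_of_nonneg (Real.sqrt_nonneg _)]
  apply div_le_one_of_le₀ _ (Real.sqrt_nonneg _)
  rw [← Real.sqrt_sq_eq_abs]
  apply Real.sqrt_le_sqrt
  unfold dotProduct
  have h1 : row A a ^ 2 = row A a * row A a := pow_two _
  rw [h1]
  exact Finset.single_le_sum (f := fun a => row A a * row A a) (fun _ _ => mul_self_nonneg _) (Finset.mem_univ a)

theorem eval_urow (A : Matrix (Mon M D) (Mon M D) ℝ) (p : Fin M → ℝ) :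
    ∑ a, urow A a * vv p a = eval p (pol (row A)) / Real.sqrt (row A ⬝ᵥ row A) := by
  rw [eval_pol]
  unfold urow dotProduct
  rw [Finset.sum_div]
  exact Finset.sum_congr rfl fun a _ => by ring

/-- value of the normalised row -/
theorem urow_val {A : Matrix (Mon M D) (Mon M D) ℝ} (hA : PdM A) (r : ℝ) (hr : 0 < r) (p : Fin M → ℝ) {b K : ℝ}
    (hb : 0 < b) (hbA : b ≤ row A ⬝ᵥ row A) (hK : phi r A p ≤ K) :
    (∑ a, urow A a * vv p a) ^ 2 ≤ Cm M D ^ 2 * K / b := by
  have h0 : 0 < row A ⬝ᵥ row A := hb.trans_le hbA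
  rw [eval_urow, div_pow, Real.sq_sqrt h0.le]
  have h1 := row_val hA r hr p
  have h2 : Cm M D ^ 2 * phi r A p ≤ Cm M D ^ 2 * K := mul_le_mul_of_nonneg_left hK (sq_nonneg _)
  calc (eval p (pol (row A))) ^ 2 / (row A ⬝ᵥ row A) ≤ (Cm M D ^ 2 * K) / (row A ⬝ᵥ row A) :=
        div_le_div_of_nonneg_right (h1.trans h2) h0.le
    _ ≤ (Cm M D ^ 2 * K) / b := by
        apply div_le_div_of_nonneg_left _ hb hbA
        exact (sq_nonneg _).trans (h1.trans h2)

/-- upper bound of the volume by the trace -/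
theorem GQ_le_trc {A : Matrix (Mon M D) (Mon M D) ℝ} (hA : PdM A) (r : ℝ) (p : Fin M → ℝ) :
    GQ r A p ≤ (1 + trc A * gam r (1 : Matrix (Mon M D) (Mon M D) ℝ) p) ^ M := by
  refine (GQ_le_gam r A hA p).trans ?_
  have h0 := gam_nonneg r hA.nonneg p
  apply pow_le_pow_left₀ (by linarith)
  have h1 : gam r A p ≤ gam r (trc A • (1 : Matrix (Mon M D) (Mon M D) ℝ)) p := by
    apply gam_mono
    intro x
    rw [Matrix.smul_mulVec, Matrix.one_mulVec, dotProduct_smul, smul_eq_mul]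
    exact le_trc hA x
  rw [gam_smul] at h1
  linarith

end

end Pool.Agent.Helper5.HB
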